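import Pool.Agent.N288.MM.Line

/-!
# Weighted lines: optimal sequences are Cauchy in energy
-/

set_option autoImplicit false

open MeasureTheory Filter Topology Set Metric
open scoped ENNReal NNReal

namespace Pool.Agent.N288.MM

lemma complete_L2 {μ : Measure ℝ} {u : ℕ → ℝ → ℝ} (hu : ∀ n, MemLp (u n) 2 μ)
    (hc : ∀ ε : ℝ≥0∞, 0 < ε → ∃ N, ∀ j ≥ N, ∀ k ≥ N,
      eLpNorm (fun x => u j x - u k x) 2 μ < ε) :
    ∃ g, MemLp g 2 μ ∧ Tendsto (fun n => eLpNorm (fun x => u n x - g x) 2 μ) atTop (𝓝 0) := by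
  have hC : CauchySeq fun n => (hu n).toLp (u n) := by
    rw [EMetric.cauchySeq_iff]
    intro ε hε
    obtain ⟨N, hN⟩ := hc ε hε
    refine ⟨N, fun j hj k hk => ?_⟩
    rw [Lp.edist_toLp_toLp]
    exact hN j hj k hk
  obtain ⟨V, hV⟩ := cauchySeq_tendsto_of_complete hC
  refine ⟨V, Lp.memLp V, ?_⟩
  have := (Lp.tendsto_Lp_iff_tendsto_eLpNorm'' u hu V (Lp.memLp V)).1 (by
    rw [Lp.toLp_coeFn]; exact hV)
  exact this

variable {w : ℝ → ℝ}

lemma deriv_comb {F G : ℝ → ℝ} (hF : IsLip F) (hG : IsLip G) (a b : ℝ) :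
    ∀ᵐ x, deriv (fun x => a * F x + b * G x) x = a * deriv F x + b * deriv G x := by
  filter_upwards [hF.ae_diff, hG.ae_diff] with x h1 h2
  exact ((h1.hasDerivAt.const_mul a).add (h2.hasDerivAt.const_mul b)).deriv

lemma par_energy (hw : Weight w) {F G : ℝ → ℝ} (hF : IsLip F) (hG : IsLip G) :
    Q w (fun x => deriv F x - deriv G x) +
      8 * Ew w (fun x => (1 / 2) * (F x + G x)) =
    4 * Ew w F + 4 * Ew w G := by
  have hm : IsLip fun x => (1 / 2) * (F x + G x) := (hF.add' hG).smul' _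
  rw [Ew_eq hw hm, Ew_eq hw hF, Ew_eq hw hG]
  have h1 : Q w (deriv fun x => (1 / 2) * (F x + G x)) =
      ENNReal.ofReal ((1 / 2) ^ 2) * Q w (fun x => deriv F x + deriv G x) := by
    rw [← Q_smul]
    refine Q_congr hw ?_
    filter_upwards [hF.ae_diff, hG.ae_diff] with x h1 h2
    exact ((h1.hasDerivAt.add h2.hasDerivAt).const_mul (1 / 2 : ℝ)).deriv
  have h2 := Q_par (w := w) (u := deriv F) (v := deriv G) (measurable_deriv F).aemeasurable
    (measurable_deriv G).aemeasurable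
  rw [h1]
  have e1 : ∀ x : ℝ≥0∞, 8 * (ENNReal.ofReal ((1 / 2) ^ 2) * x / 2) = x := by
    intro x
    rw [ENNReal.div_eq_inv_mul, show (8 : ℝ≥0∞) = ENNReal.ofReal 8 by simp,
      show (2 : ℝ≥0∞)⁻¹ = ENNReal.ofReal (1 / 2) by
        rw [one_div, ENNReal.ofReal_inv_of_pos (by norm_num)]; simp, ← mul_assoc, ← mul_assoc,
      ← ENNReal.ofReal_mul (by norm_num), ← ENNReal.ofReal_mul (by norm_num)]
    norm_num
  have e2 : ∀ x : ℝ≥0∞, 4 * (x / 2) = 2 * x := by
    intro x
    rw [ENNReal.div_eq_inv_mul, show (4 : ℝ≥0∞) = 2 * 2 by norm_num, mul_assoc,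
      ← mul_assoc (2 : ℝ≥0∞) (2⁻¹) x, ENNReal.mul_inv_cancel (by simp) (by simp), one_mul]
  rw [e1, e2, e2, ← h2, add_comm]

lemma opt_cauchy (hw : Weight w) {F : ℕ → ℝ → ℝ} {f : ℝ → ℝ} (hF : Ap w F f)
    (hf : MemLp f 2 (mu w)) (h : Cw w f < ∞)
    (hE : Tendsto (fun n => Ew w (F n)) atTop (𝓝 (Cw w f))) :
    ∃ g, MemLp g 2 (mu w) ∧
      Tendsto (fun n => eLpNorm (fun x => deriv (F n) x - g x) 2 (mu w)) atTop (𝓝 0) ∧
      Cw w f = Q w g / 2 := by
  set a := Cw w f with ha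
  have step1 : ∀ ε : ℝ≥0∞, 0 < ε → ∃ N, ∀ j ≥ N, ∀ k ≥ N,
      a ≤ Ew w (fun x => (1 / 2) * (F j x + F k x)) + ε := by
    intro ε hε
    by_contra hcon
    push Not at hcon
    choose j hj k hk hlt using hcon
    have hA : Ap w (fun n x => (1 / 2) * (F (j n) x + F (k n) x)) f := by
      have h1 := ((hF.comp (tendsto_atTop_mono hj tendsto_id)).add
        (hF.comp (tendsto_atTop_mono hk tendsto_id)) hf hf).smul (1 / 2)
      have e : (fun x => (1 / 2) * (f x + f x)) = f := by funext x; ring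
      rwa [e] at h1
    have h1 := Cw_le hA
    have h2 : liminf (fun n => Ew w fun x => (1 / 2) * (F (j n) x + F (k n) x)) atTop
        ≤ a - ε := by
      calc _ ≤ liminf (fun _ : ℕ => a - ε) atTop :=
            liminf_le_liminf (Eventually.of_forall fun n =>
              ENNReal.le_sub_of_add_le_right (ne_top_of_le_ne_top h.ne
                (le_trans le_add_self (hlt 0).le)) (hlt n).le)
        _ = a - ε := by simp
    have h3 : a ≤ a - ε := h1.trans h2
    have h4 : a ≠ 0 := by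
      intro h0
      have := hlt 0
      rw [h0] at this
      exact absurd this (by simp)
    exact absurd (lt_of_le_of_lt h3 (ENNReal.sub_lt_self h.ne h4 hε.ne')) (lt_irrefl _)
  have step2 : ∀ ε : ℝ≥0∞, 0 < ε → ε ≠ ∞ → ∃ N, ∀ j ≥ N, ∀ k ≥ N,
      Q w (fun x => deriv (F j) x - deriv (F k) x) ≤ 16 * ε := by
    intro ε hε hεt
    obtain ⟨N1, hN1⟩ := step1 ε hε
    have h5 : ∀ᶠ n in atTop, Ew w (F n) < a + ε :=
      (tendsto_order.1 hE).2 _ (ENNReal.lt_add_right h.ne hε.ne')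
    obtain ⟨N2, hN2⟩ := eventually_atTop.1 h5
    refine ⟨max N1 N2, fun j hj k hk => ?_⟩
    have h6 := par_energy hw (hF.1 j).1 (hF.1 k).1
    have h7 := hN1 j (le_trans (le_max_left _ _) hj) k (le_trans (le_max_left _ _) hk)
    have h8 := (hN2 j (le_trans (le_max_right _ _) hj)).le
    have h9 := (hN2 k (le_trans (le_max_right _ _) hk)).le
    have h10 : Q w (fun x => deriv (F j) x - deriv (F k) x) + 8 * a ≤ 16 * ε + 8 * a := by
      calc Q w (fun x => deriv (F j) x - deriv (F k) x) + 8 * a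
          ≤ Q w (fun x => deriv (F j) x - deriv (F k) x) +
            8 * (Ew w (fun x => (1 / 2) * (F j x + F k x)) + ε) := by gcongr
        _ = (4 * Ew w (F j) + 4 * Ew w (F k)) + 8 * ε := by
            rw [← h6]; ring
        _ ≤ (4 * (a + ε) + 4 * (a + ε)) + 8 * ε := by gcongr
        _ = 16 * ε + 8 * a := by ring
    exact (ENNReal.add_le_add_iff_right (ENNReal.mul_ne_top (by simp) h.ne)).1 h10
  have step3 : ∀ ε : ℝ≥0∞, 0 < ε → ∃ N, ∀ j ≥ N, ∀ k ≥ N,
      eLpNorm (fun x => deriv (F j) x - deriv (F k) x) 2 (mu w) < ε := by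
    intro ε hε
    obtain ⟨δ, hδ0, hδε⟩ := ENNReal.lt_iff_exists_nnreal_btwn.1 hε
    have hδ : (0 : ℝ≥0∞) < δ := hδ0
    obtain ⟨N, hN⟩ := step2 ((δ : ℝ≥0∞) ^ 2 / 16) (by
      refine ENNReal.div_pos ?_ (by simp)
      exact pow_ne_zero 2 hδ.ne') (ENNReal.div_ne_top (by simp) (by simp))
    refine ⟨N, fun j hj k hk => lt_of_le_of_lt ?_ hδε⟩
    have h1 := hN j hj k hk
    rw [ENNReal.mul_div_cancel (by simp) (by simp), ← eLpNorm_sq'] at h1
    exact (ENNReal.pow_le_pow_left_iff (by norm_num)).1 h1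
  -- square integrability from some index on
  have h5 : ∀ᶠ n in atTop, Ew w (F n) < ∞ := (tendsto_order.1 hE).2 _ h
  obtain ⟨N0, hN0⟩ := eventually_atTop.1 h5
  have hmem : ∀ n, MemLp (deriv (F (n + N0))) 2 (mu w) := by
    intro n
    refine ⟨(measurable_deriv _).aestronglyMeasurable, ?_⟩
    have h6 := hN0 (n + N0) (Nat.le_add_left _ _)
    rw [Ew_eq hw (hF.1 _).1, ← eLpNorm_sq'] at h6
    by_contra h7
    rw [not_lt, top_le_iff] at h7
    rw [h7] at h6
    simp [ENNReal.top_div] at h6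
  obtain ⟨g, hg, hgt⟩ := complete_L2 hmem (fun ε hε => by
    obtain ⟨N, hN⟩ := step3 ε hε
    exact ⟨N, fun j hj k hk => hN _ (le_trans hj (Nat.le_add_right _ _)) _
      (le_trans hk (Nat.le_add_right _ _))⟩)
  have hgt' : Tendsto (fun n => eLpNorm (fun x => deriv (F n) x - g x) 2 (mu w)) atTop (𝓝 0) :=
    (tendsto_add_atTop_iff_nat N0).1 hgt
  refine ⟨g, hg, hgt', ?_⟩
  -- the energies converge to Q g / 2
  have h8 : Tendsto (fun n => eLpNorm (deriv (F n)) 2 (mu w)) atTop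
      (𝓝 (eLpNorm g 2 (mu w))) := by
    have hup : ∀ n, eLpNorm (deriv (F n)) 2 (mu w) ≤
        eLpNorm (fun x => deriv (F n) x - g x) 2 (mu w) + eLpNorm g 2 (mu w) := by
      intro n
      have := eLpNorm_add_le (p := 2) (μ := mu w) (f := fun x => deriv (F n) x - g x) (g := g)
        ((measurable_deriv _).aestronglyMeasurable.sub hg.1) hg.1 (by norm_num)
      refine le_trans (le_of_eq ?_) this
      congr 1
      funext x
      simp
    have hlo : ∀ n, eLpNorm g 2 (mu w) ≤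
        eLpNorm (fun x => deriv (F n) x - g x) 2 (mu w) + eLpNorm (deriv (F n)) 2 (mu w) := by
      intro n
      have := eLpNorm_add_le (p := 2) (μ := mu w) (f := fun x => g x - deriv (F n) x)
        (g := deriv (F n)) (hg.1.sub (measurable_deriv _).aestronglyMeasurable)
        ((measurable_deriv _).aestronglyMeasurable) (by norm_num)
      refine le_trans (le_of_eq ?_) (this.trans (le_of_eq ?_))
      · congr 1
        funext x
        simp
      · congr 1
        exact eLpNorm_sub_comm g (deriv (F n)) 2 (mu w)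
    have t1 : Tendsto (fun n => eLpNorm g 2 (mu w) -
        eLpNorm (fun x => deriv (F n) x - g x) 2 (mu w)) atTop (𝓝 (eLpNorm g 2 (mu w))) := by
      have := ENNReal.Tendsto.sub (tendsto_const_nhds (x := eLpNorm g 2 (mu w))) hgt'
        (Or.inl hg.2.ne)
      simpa using this
    have t2 := hgt'.add_const (eLpNorm g 2 (mu w))
    rw [zero_add] at t2
    exact tendsto_of_tendsto_of_tendsto_of_le_of_le t1 t2
      (fun n => tsub_le_iff_left.2 (hlo n)) hup
  have h9 : Tendsto (fun n => Ew w (F n)) atTop (𝓝 (Q w g / 2)) := by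
    have h10 := ENNReal.Tendsto.div_const (ENNReal.Tendsto.pow (n := 2) h8) (b := 2) (Or.inr (by simp))
    rw [eLpNorm_sq'] at h10
    refine h10.congr fun n => ?_
    rw [eLpNorm_sq', Ew_eq hw (hF.1 n).1]
  exact tendsto_nhds_unique hE h9

end Pool.Agent.N288.MM
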