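import Pool.Agent.N288.MM.QL

/-!
# The oscillating weights
-/

set_option autoImplicit false

open MeasureTheory Filter Topology Set Metric
open scoped ENNReal NNReal Real

namespace Pool.Agent.N288.MM

/-- the frequency -/
noncomputable def fr (N : ℕ) : ℝ := 2 * π * (N + 1)

lemma fr_pos (N : ℕ) : 0 < fr N := by unfold fr; positivity

lemma sin_fr (N : ℕ) : Real.sin (fr N) = 0 := by
  have : fr N = ((2 * (N + 1) : ℕ) : ℝ) * π := by unfold fr; push_cast; ring
  rw [this]
  exact Real.sin_nat_mul_pi _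

/-- the weights -/
noncomputable def wN (N : ℕ) (x : ℝ) : ℝ := 3 / 2 + Real.cos (fr N * x) / 2

/-- the limit weight -/
noncomputable def wI : ℝ → ℝ := fun _ => 3 / 2

lemma wN_cont (N : ℕ) : Continuous (wN N) := by
  unfold wN
  fun_prop

lemma wN_weight (N : ℕ) : Weight (wN N) where
  meas := (wN_cont N).measurable
  one_le x := by
    unfold wN
    linarith [Real.neg_one_le_cos (fr N * x)]
  le_two x := by
    unfold wN
    linarith [Real.cos_le_one (fr N * x)]

lemma wI_weight : Weight wI where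
  meas := measurable_const
  one_le x := by unfold wI; norm_num
  le_two x := by unfold wI; norm_num

/-- the derivative of the tent function -/
noncomputable def sg (t : ℝ) : ℝ := if t ∈ Icc (-1 : ℝ) 0 then 1 else if t ∈ Ioc (0 : ℝ) 1 then -1 else 0

lemma sg_left {t : ℝ} (h : t ∈ Icc (-1 : ℝ) 0) : sg t = 1 := if_pos h

lemma sg_right {t : ℝ} (h : t ∈ Ioc (0 : ℝ) 1) : sg t = -1 := by
  unfold sg
  rw [if_neg, if_pos h]
  intro h2
  exact absurd h2.2 (not_le.2 h.1)

lemma sg_out {t : ℝ} (h : t ∉ Icc (-1 : ℝ) 1) : sg t = 0 := by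
  unfold sg
  rw [if_neg, if_neg]
  · intro h2; exact h ⟨by linarith [h2.1], h2.2⟩
  · intro h2; exact h ⟨h2.1, by linarith [h2.2]⟩

lemma sg_meas : Measurable sg :=
  Measurable.ite measurableSet_Icc measurable_const
    (Measurable.ite measurableSet_Ioc measurable_const measurable_const)

lemma sg_abs (t : ℝ) : |sg t| ≤ 1 := by
  unfold sg
  split_ifs <;> simp

lemma sg_sq {t : ℝ} (h : t ∈ Icc (-1 : ℝ) 1) : sg t ^ 2 = 1 := by
  rcases le_or_gt t 0 with h0 | h0
  · rw [sg_left ⟨h.1, h0⟩]; norm_num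
  · rw [sg_right ⟨h0, h.2⟩]; norm_num

lemma int_sg_left {g : ℝ → ℝ} {x : ℝ} (hx : x ∈ Icc (-1 : ℝ) 0) :
    ∫ t in (-1 : ℝ)..x, sg t * g t = ∫ t in (-1 : ℝ)..x, g t := by
  refine intervalIntegral.integral_congr fun t ht => ?_
  rw [uIcc_of_le hx.1] at ht
  show sg t * g t = g t
  rw [sg_left ⟨ht.1, ht.2.trans hx.2⟩, one_mul]

lemma int_sg_right {g : ℝ → ℝ} {x : ℝ} (hx : x ∈ Icc (0 : ℝ) 1) :
    ∫ t in (0 : ℝ)..x, sg t * g t = - ∫ t in (0 : ℝ)..x, g t := by
  rw [← intervalIntegral.integral_neg]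
  refine intervalIntegral.integral_congr_ae ?_
  refine Eventually.of_forall fun t ht => ?_
  rw [uIoc_of_le hx.1] at ht
  rw [sg_right ⟨ht.1, ht.2.trans hx.2⟩]
  ring

lemma sg_iint {g : ℝ → ℝ} (hg : Continuous g) (a b : ℝ) :
    IntervalIntegrable (fun t => sg t * g t) volume a b := by
  refine (hg.intervalIntegrable a b).mono_fun (sg_meas.mul hg.measurable).aestronglyMeasurable
    (Eventually.of_forall fun t => ?_)
  show ‖sg t * g t‖ ≤ ‖g t‖
  rw [norm_mul]
  calc ‖sg t‖ * ‖g t‖ ≤ 1 * ‖g t‖ := by gcongr; exact sg_abs t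
    _ = ‖g t‖ := one_mul _

/-- the derivative of the recovery sequence -/
noncomputable def thN (N : ℕ) (t : ℝ) : ℝ := sg t * (1 - Real.cos (fr N * t) / 3)

lemma int_cos (N : ℕ) (a b : ℝ) :
    ∫ t in a..b, Real.cos (fr N * t) = (Real.sin (fr N * b) - Real.sin (fr N * a)) / fr N := by
  rw [intervalIntegral.integral_comp_mul_left (fun x => Real.cos x) (fr_pos N).ne', integral_cos]
  rw [smul_eq_mul]
  ring

lemma int_one_sub (N : ℕ) (a b : ℝ) : ∫ t in a..b, (1 - Real.cos (fr N * t) / 3) =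
    (b - a) - (Real.sin (fr N * b) - Real.sin (fr N * a)) / fr N / 3 := by
  rw [intervalIntegral.integral_sub intervalIntegrable_const
    ((by fun_prop : Continuous fun t : ℝ => Real.cos (fr N * t) / 3).intervalIntegrable a b),
    intervalIntegral.integral_const, intervalIntegral.integral_div, int_cos]
  simp

lemma int_thN (N : ℕ) {x : ℝ} (hx : x ∈ Icc (-1 : ℝ) 1) :
    |(∫ t in (-1 : ℝ)..x, thN N t) - ∫ t in (-1 : ℝ)..x, sg t| ≤ 1 / (3 * fr N) := by
  have hc : Continuous fun t : ℝ => 1 - Real.cos (fr N * t) / 3 := by fun_prop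
  have e0 : ∀ a b : ℝ, ∫ t in a..b, sg t = ∫ t in a..b, sg t * 1 := fun a b => by simp
  have hs : Real.sin (fr N * -1) = 0 := by rw [mul_neg, mul_one, Real.sin_neg, sin_fr, neg_zero]
  have key : (∫ t in (-1 : ℝ)..x, thN N t) - ∫ t in (-1 : ℝ)..x, sg t =
      Real.sin (fr N * x) / fr N / 3 ∨ (∫ t in (-1 : ℝ)..x, thN N t) - ∫ t in (-1 : ℝ)..x, sg t =
      -(Real.sin (fr N * x) / fr N / 3) := by
    unfold thN
    rcases le_or_gt x 0 with h0 | h0
    · right
      rw [e0, int_sg_left ⟨hx.1, h0⟩, int_sg_left ⟨hx.1, h0⟩, int_one_sub, hs,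
        intervalIntegral.integral_const]
      simp
    · left
      rw [e0, ← intervalIntegral.integral_add_adjacent_intervals (sg_iint hc (-1) 0)
        (sg_iint hc 0 x), ← intervalIntegral.integral_add_adjacent_intervals
        (sg_iint continuous_const (-1) 0) (sg_iint continuous_const 0 x),
        int_sg_left ⟨by norm_num, le_rfl⟩, int_sg_left ⟨by norm_num, le_rfl⟩,
        int_sg_right ⟨h0.le, hx.2⟩, int_sg_right ⟨h0.le, hx.2⟩, int_one_sub, int_one_sub, hs,
        intervalIntegral.integral_const, intervalIntegral.integral_const]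
      simp
  have h1 : |Real.sin (fr N * x) / fr N / 3| ≤ 1 / (3 * fr N) := by
    rw [abs_div, abs_div, abs_of_pos (fr_pos N), abs_of_pos (by norm_num : (0 : ℝ) < 3)]
    have h2 := fr_pos N
    calc |Real.sin (fr N * x)| / fr N / 3 ≤ 1 / fr N / 3 := by
          gcongr
          exact Real.abs_sin_le_one _
      _ = 1 / (3 * fr N) := by
          rw [div_div, mul_comm]
  rcases key with h | h
  · rw [h]; exact h1
  · rw [h, abs_neg]; exact h1

lemma bd_sg : Bd sg 2 (-1) 1 := by
  refine ⟨sg_meas, fun t => (sg_abs t).trans (by norm_num), by norm_num, fun t ht => sg_out ht, ?_⟩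
  have e0 : ∀ a b : ℝ, ∫ t in a..b, sg t = ∫ t in a..b, sg t * 1 := fun a b => by simp
  rw [e0, ← intervalIntegral.integral_add_adjacent_intervals (b := 0)
        (sg_iint continuous_const (-1) 0) (sg_iint continuous_const 0 1),
        int_sg_left ⟨by norm_num, le_rfl⟩, int_sg_right ⟨by norm_num, le_rfl⟩]
  simp

lemma bd_thN (N : ℕ) : Bd (thN N) 2 (-1) 1 := by
  have hc : Continuous fun t : ℝ => 1 - Real.cos (fr N * t) / 3 := by fun_prop
  refine ⟨sg_meas.mul hc.measurable, fun t => ?_, by norm_num, fun t ht => ?_, ?_⟩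
  · unfold thN
    rw [abs_mul]
    have h1 : |1 - Real.cos (fr N * t) / 3| ≤ 2 := by
      rw [abs_le]
      constructor <;> linarith [Real.neg_one_le_cos (fr N * t), Real.cos_le_one (fr N * t)]
    calc |sg t| * |1 - Real.cos (fr N * t) / 3| ≤ 1 * 2 := by gcongr; exact sg_abs t
      _ = 2 := by norm_num
  · unfold thN; rw [sg_out ht, zero_mul]
  · unfold thN
    have hs : Real.sin (fr N * -1) = 0 := by rw [mul_neg, mul_one, Real.sin_neg, sin_fr, neg_zero]
    rw [← intervalIntegral.integral_add_adjacent_intervals (b := 0)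
        (sg_iint hc (-1) 0) (sg_iint hc 0 1),
        int_sg_left ⟨by norm_num, le_rfl⟩, int_sg_right ⟨by norm_num, le_rfl⟩, int_one_sub,
        int_one_sub, hs, mul_one, sin_fr]
    simp

/-- the tent function -/
noncomputable def tent (x : ℝ) : ℝ := ∫ t in (-1 : ℝ)..x, sg t

/-- the recovery sequence -/
noncomputable def fN (N : ℕ) (x : ℝ) : ℝ := ∫ t in (-1 : ℝ)..x, thN N t

lemma diff_le (N : ℕ) (x : ℝ) : |fN N x - tent x| ≤ (Icc (-1 : ℝ) 1).indicator (fun _ => 1 / ((N : ℝ) + 1)) x := by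
  by_cases hx : x ∈ Icc (-1 : ℝ) 1
  · rw [indicator_of_mem hx]
    refine (int_thN N hx).trans ?_
    unfold fr
    gcongr
    have : (3 : ℝ) < π := Real.pi_gt_three
    have h0 : (0 : ℝ) ≤ N := N.cast_nonneg
    nlinarith
  · rw [indicator_of_notMem hx]
    unfold fN tent
    rw [(bd_thN N).outside hx, bd_sg.outside hx]
    simp

lemma fN_abs (N : ℕ) (x : ℝ) : |fN N x| ≤ (Icc (-1 : ℝ) 1).indicator (fun _ => (4 : ℝ)) x := by
  by_cases hx : x ∈ Icc (-1 : ℝ) 1
  · rw [indicator_of_mem hx]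
    have := intervalIntegral.norm_integral_le_of_norm_le_const (a := -1) (b := x) (f := thN N)
      (C := 2) (fun t _ => by rw [Real.norm_eq_abs]; exact (bd_thN N).bd t)
    rw [Real.norm_eq_abs] at this
    refine this.trans ?_
    rw [abs_of_nonneg (by linarith [hx.1])]
    linarith [hx.2]
  · rw [indicator_of_notMem hx]
    unfold fN
    rw [(bd_thN N).outside hx]
    simp

lemma int_en (N : ℕ) : ∫ t in (-1 : ℝ)..1,
    wN N t * (1 - Real.cos (fr N * t) / 3) ^ 2 = 17 / 6 := by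
  have ha := (fr_pos N).ne'
  have hd : ∀ t ∈ uIcc (-1 : ℝ) 1, HasDerivAt (fun t => 3 / 2 * t - Real.sin (fr N * t) / (2 * fr N)
      - (1 / 6) * (t / 2 + Real.sin (fr N * t) * Real.cos (fr N * t) / (2 * fr N))
      + (1 / 18) * ((Real.sin (fr N * t) - Real.sin (fr N * t) ^ 3 / 3) / fr N))
      (wN N t * (1 - Real.cos (fr N * t) / 3) ^ 2) t := by
    intro t _
    have h0 : HasDerivAt (fun t : ℝ => fr N * t) (fr N) t := by
      simpa using (hasDerivAt_id t).const_mul (fr N)
    have hs := h0.sin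
    have hc := h0.cos
    have h1 := ((((hasDerivAt_id t).const_mul (3 / 2 : ℝ)).sub (hs.div_const (2 * fr N))).sub
      ((((hasDerivAt_id t).div_const 2).add ((hs.mul hc).div_const (2 * fr N))).const_mul
        (1 / 6 : ℝ))).add (((hs.sub ((hs.pow 3).div_const 3)).div_const (fr N)).const_mul
        (1 / 18 : ℝ))
    refine h1.congr_deriv ?_
    unfold wN
    have h2 := Real.sin_sq_add_cos_sq (fr N * t)
    set s := Real.sin (fr N * t)
    set c := Real.cos (fr N * t)
    have h3 : s ^ 2 = 1 - c ^ 2 := by linarith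
    field_simp
    simp only [Nat.cast_ofNat]
    have h4 : s * s = 1 - c ^ 2 := by rw [← h3]; ring
    ring_nf
    rw [h3]
    ring
  rw [intervalIntegral.integral_eq_sub_of_hasDerivAt hd
    ((by unfold wN; fun_prop : Continuous fun t => wN N t *
      (1 - Real.cos (fr N * t) / 3) ^ 2).intervalIntegrable _ _)]
  have hs : Real.sin (fr N * -1) = 0 := by rw [mul_neg, mul_one, Real.sin_neg, sin_fr, neg_zero]
  have hs1 : Real.sin (fr N * 1) = 0 := by rw [mul_one, sin_fr]
  rw [hs, hs1]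
  ring

lemma set_int_eq {w g θ : ℝ → ℝ} (he : ∀ t ∈ Icc (-1 : ℝ) 1, w t * θ t ^ 2 = g t)
    (h0 : ∀ t, t ∉ Icc (-1 : ℝ) 1 → θ t = 0) :
    ∫ t, w t * θ t ^ 2 = ∫ t in (-1 : ℝ)..1, g t := by
  rw [intervalIntegral.integral_of_le (by norm_num), ← integral_Icc_eq_integral_Ioc,
    ← integral_indicator measurableSet_Icc]
  congr 1
  funext t
  by_cases ht : t ∈ Icc (-1 : ℝ) 1
  · rw [indicator_of_mem ht, he t ht]
  · rw [indicator_of_notMem ht, h0 t ht]; ring

lemma Cw_fN (N : ℕ) : Cw (wN N) (fN N) = ENNReal.ofReal (17 / 12) := by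
  have hw := wN_weight N
  have hd : Der (wN N) (fN N) (thN N) := (bd_thN N).der hw
  rw [hd.Cw_eq hw]
  have h1 : (Q (wN N) (thN N)).toReal = 17 / 6 := by
    rw [Q_toReal hd.2.1.1.aemeasurable, int_mu hw, ← int_en N]
    refine set_int_eq (fun t ht => ?_) fun t ht => ?_
    · unfold thN
      rw [mul_pow, sg_sq ht, one_mul]
    · unfold thN
      rw [sg_out ht, zero_mul]
  rw [← ENNReal.ofReal_toReal (Q_lt_top hd.2.1).ne, h1, show (2 : ℝ≥0∞) = ENNReal.ofReal 2 by simp,
    ← ENNReal.ofReal_div_of_pos (by norm_num)]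
  norm_num

lemma Cw_tent : Cw wI tent = ENNReal.ofReal (3 / 2) := by
  have hw := wI_weight
  have hd : Der wI tent sg := bd_sg.der hw
  rw [hd.Cw_eq hw]
  have h1 : (Q wI sg).toReal = 3 := by
    rw [Q_toReal hd.2.1.1.aemeasurable, int_mu hw,
      set_int_eq (g := fun _ => 3 / 2) (fun t ht => ?_) fun t ht => sg_out ht]
    · rw [intervalIntegral.integral_const]; norm_num
    · rw [sg_sq ht, mul_one]; rfl
  rw [← ENNReal.ofReal_toReal (Q_lt_top hd.2.1).ne, h1, show (2 : ℝ≥0∞) = ENNReal.ofReal 2 by simp,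
    ← ENNReal.ofReal_div_of_pos (by norm_num)]

/-- Riemann-Lebesgue -/
lemma rl {ψ : ℝ → ℝ} (hψ : Integrable ψ) :
    Tendsto (fun N : ℕ => ∫ x, Real.cos (fr N * x) * ψ x) atTop (𝓝 0) := by
  have h1 := Real.tendsto_integral_exp_smul_cocompact (fun x => (ψ x : ℂ))
  have h2 : Tendsto (fun N : ℕ => (N : ℝ) + 1) atTop (cocompact ℝ) :=
    (tendsto_atTop_add_const_right _ _ tendsto_natCast_atTop_atTop).mono_right
      atTop_le_cocompact
  have h3 := (Complex.continuous_re.tendsto _).comp (h1.comp h2)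
  simp only [Complex.zero_re] at h3
  refine h3.congr fun N => ?_
  simp only [Function.comp]
  have hi : Integrable (fun v : ℝ => Real.fourierChar (-(v * ((N : ℝ) + 1))) • (ψ v : ℂ)) := by
    refine (hψ.ofReal (𝕜 := ℂ)).norm.mono' ?_ (Eventually.of_forall fun v => ?_)
    · have hc : Continuous fun v : ℝ => (Real.fourierChar (-(v * ((N : ℝ) + 1))) : ℂ) :=
        continuous_subtype_val.comp (Real.continuous_fourierChar.comp (by fun_prop))
      exact hc.aestronglyMeasurable.mul hψ.ofReal.1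
    · rw [Circle.norm_smul]
      exact le_rfl
  have h4 := integral_re hi
  have h5 : (∫ v : ℝ, Real.fourierChar (-(v * ((N : ℝ) + 1))) • (ψ v : ℂ)).re =
      ∫ v : ℝ, (Real.fourierChar (-(v * ((N : ℝ) + 1))) • (ψ v : ℂ)).re := h4.symm
  rw [h5]
  refine integral_congr_ae (Eventually.of_forall fun v => ?_)
  simp only [Circle.smul_def, Real.fourierChar_apply, smul_eq_mul]
  have e' : (((2 * π * -(v * ((N : ℝ) + 1)) : ℝ) : ℂ) * Complex.I) =
      ((-(fr N * v) : ℝ) : ℂ) * Complex.I := by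
    unfold fr; push_cast; ring
  rw [e', Complex.exp_mul_I, ← Complex.ofReal_cos, ← Complex.ofReal_sin, Real.cos_neg]
  rw [Complex.re_mul_ofReal, Complex.add_re, Complex.ofReal_re, Complex.re_ofReal_mul, Complex.I_re,
    mul_zero, add_zero]

end Pool.Agent.N288.MM
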