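import Mathlib

/-!
# Metric measure spaces, Cheeger energies, pointed measured Gromov-Hausdorff convergence

Definitions for the problem `MP_a99579_gt`.
-/

set_option autoImplicit false

open MeasureTheory Filter Topology Set Metric
open scoped ENNReal NNReal

namespace Pool.Agent.N288.MM

/-- A metric measure space: a complete separable metric space with a Borel measure which is finite
and positive on every open ball. -/
structure Space where
  /-- the underlying set -/
  X : Type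
  [met : MetricSpace X]
  [compl : CompleteSpace X]
  [sep : TopologicalSpace.SeparableSpace X]
  [meas : MeasurableSpace X]
  [bor : BorelSpace X]
  /-- the reference measure -/
  m : Measure X
  ball_pos : ∀ (x : X) (r : ℝ), 0 < r → 0 < m (ball x r)
  ball_fin : ∀ (x : X) (r : ℝ), m (ball x r) < ∞

attribute [instance] Space.met Space.compl Space.sep Space.meas Space.bor

/-- Lipschitz functions. -/
def IsLip {X : Type} [MetricSpace X] (f : X → ℝ) : Prop := ∃ K : ℝ≥0, LipschitzWith K f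

/-- The local Lipschitz constant `Lip f (x) = limsup_{y → x} |f y - f x| / d(y, x)`
(it is `0` at isolated points). -/
noncomputable def lip {X : Type} [MetricSpace X] (f : X → ℝ) (x : X) : ℝ≥0∞ :=
  limsup (fun y => ENNReal.ofReal (|f y - f x| / dist y x)) (𝓝[≠] x)

/-- `1/2 ∫ (Lip f)² dm`. -/
noncomputable def energy (S : Space) (f : S.X → ℝ) : ℝ≥0∞ := (∫⁻ x, lip f x ^ 2 ∂S.m) / 2

/-- `F n` are Lipschitz functions in `L²(m)` which converge to `f` in `L²(m)`. -/
def Approx (S : Space) (F : ℕ → S.X → ℝ) (f : S.X → ℝ) : Prop :=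
  (∀ n, IsLip (F n) ∧ MemLp (F n) 2 S.m) ∧
    Tendsto (fun n => eLpNorm (fun x => F n x - f x) 2 S.m) atTop (𝓝 0)

/-- The Cheeger energy: the relaxation in `L²(m)` of `1/2 ∫ (Lip f)² dm`. -/
noncomputable def Ch (S : Space) (f : S.X → ℝ) : ℝ≥0∞ :=
  ⨅ (F : ℕ → S.X → ℝ) (_ : Approx S F f), liminf (fun n => energy S (F n)) atTop

/-- `G` is (a representative of) the minimal weak upper gradient `|∇f|` of a function `f` of finite
Cheeger energy, in the form of the minimal relaxed slope: `G ∈ L²(m)`, `Ch(f) = 1/2 ∫ G² dm`, and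
`G` is the limit in `L²(m)` of the local Lipschitz constants of Lipschitz functions which converge
to `f` in `L²(m)`. -/
def IsGrad (S : Space) (f G : S.X → ℝ) : Prop :=
  MemLp G 2 S.m ∧ Ch S f = (∫⁻ x, ENNReal.ofReal (G x ^ 2) ∂S.m) / 2 ∧
    ∃ F : ℕ → S.X → ℝ, Approx S F f ∧
      Tendsto (fun n => eLpNorm (fun x => (lip (F n) x).toReal - G x) 2 S.m) atTop (𝓝 0)

/-- `X` is infinitesimally Hilbertian: the Cheeger energy is a quadratic form on `L²(m)`
(parallelogram identity). -/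
def IH (S : Space) : Prop :=
  ∀ f g : S.X → ℝ, MemLp f 2 S.m → MemLp g 2 S.m →
    Ch S (fun x => f x + g x) + Ch S (fun x => f x - g x) = 2 * Ch S f + 2 * Ch S g

/-- `X` is PI for the functions `cv, cp` and the dilation factor `Λ`: local doubling and a weak
local `(1,2)`-Poincaré inequality for Lipschitz functions. -/
def PI (S : Space) (cv cp : ℝ → ℝ) (Λ : ℝ) : Prop :=
  ∀ R : ℝ, 0 < R → ∀ (x : S.X) (r : ℝ), 0 < r → r ≤ R →
    S.m (ball x (2 * r)) ≤ ENNReal.ofReal (cv R) * S.m (ball x r) ∧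
    ∀ f : S.X → ℝ, IsLip f →
      (∫⁻ y in ball x r, ENNReal.ofReal |f y - ⨍ z in ball x r, f z ∂S.m| ∂S.m) /
          S.m (ball x r) ≤
        ENNReal.ofReal (cp R * r) *
          ((∫⁻ y in ball x (Λ * r), lip f y ^ 2 ∂S.m) / S.m (ball x (Λ * r))) ^ (1 / 2 : ℝ)

/-- `χ` is a Lipschitz function with compact support contained in `B`. -/
def LipCptIn {X : Type} [MetricSpace X] (B : Set X) (χ : X → ℝ) : Prop :=
  IsLip χ ∧ HasCompactSupport χ ∧ tsupport χ ⊆ B

/-- `h ∈ H^{1,2}_loc(B)`: for every Lipschitz `χ` with compact support in `B` the function `χ h`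
(extended by zero) belongs to `L²(m)` and has finite Cheeger energy. -/
def HLoc (S : Space) (B : Set S.X) (h : S.X → ℝ) : Prop :=
  ∀ χ : S.X → ℝ, LipCptIn B χ → MemLp (fun x => χ x * h x) 2 S.m ∧ Ch S (fun x => χ x * h x) < ∞

/-- `∫ ⟨∇u, ∇φ⟩ dm`, the polarisation of the quadratic form `2 Ch`:
`(Ch(u + φ) - Ch(u - φ)) / 2`. -/
noncomputable def pairing (S : Space) (u φ : S.X → ℝ) : ℝ :=
  ((Ch S (fun x => u x + φ x)).toReal - (Ch S (fun x => u x - φ x)).toReal) / 2

/-- `h` is harmonic on `B`: `h ∈ H^{1,2}_loc(B)` and `∫_B ⟨∇h, ∇φ⟩ dm = 0` for every Lipschitz `φ`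
with compact support in `B`; here `⟨∇h, ∇φ⟩` is computed with `χ h` in place of `h`, for any Lipschitz
cut-off function `χ` with compact support in `B` which is `1` in a neighbourhood of the support of
`φ`. -/
def Harmonic (S : Space) (B : Set S.X) (h : S.X → ℝ) : Prop :=
  HLoc S B h ∧ ∀ φ χ : S.X → ℝ, LipCptIn B φ → LipCptIn B χ →
    (∀ᶠ x in 𝓝ˢ (tsupport φ), χ x = 1) → pairing S (fun x => χ x * h x) φ = 0

/-- `X` satisfies the QL for `ch`: for every harmonic `h` on an open ball `B` of radius `r ≤ R`,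
`|∇h| ≤ (ch R / r) ⨍_B |h| dm` almost everywhere on `½ B`; here `|∇h| = |∇(χ h)|` on `½ B` for any
Lipschitz cut-off function `χ` with compact support in `B` which is `1` on `½ B`. -/
def QL (S : Space) (ch : ℝ → ℝ) : Prop :=
  ∀ R : ℝ, 0 < R → ∀ (x : S.X) (r : ℝ), 0 < r → r ≤ R → ∀ h : S.X → ℝ, Harmonic S (ball x r) h →
    ∀ χ G : S.X → ℝ, LipCptIn (ball x r) χ → (∀ y ∈ ball x (r / 2), χ y = 1) →
      IsGrad S (fun y => χ y * h y) G →
        ∀ᵐ y ∂S.m, y ∈ ball x (r / 2) → ENNReal.ofReal (G y) ≤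
          ENNReal.ofReal (ch R / r) *
            ((∫⁻ z in ball x r, ENNReal.ofReal |h z| ∂S.m) / S.m (ball x r))

/-- Bounded continuous functions with bounded support. -/
def CBs {Z : Type} [MetricSpace Z] (ψ : Z → ℝ) : Prop :=
  Continuous ψ ∧ (∃ C : ℝ, ∀ z, |ψ z| ≤ C) ∧ Bornology.IsBounded (Function.support ψ)

/-- Pointed measured Gromov-Hausdorff convergence of `(S i, s i)` to `(T, t)`, realised by
isometric embeddings into a common complete separable metric space `Z`: the base points converge,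
balls are Hausdorff close and the measures converge against `CBs(Z)`. -/
structure PMGH (S : ℕ → Space) (T : Space) (s : ∀ i, (S i).X) (t : T.X) where
  /-- the ambient space -/
  Z : Type
  [met : MetricSpace Z]
  [compl : CompleteSpace Z]
  [sep : TopologicalSpace.SeparableSpace Z]
  /-- the embeddings of `S i` -/
  ι : ∀ i, (S i).X → Z
  /-- the embedding of `T` -/
  κ : T.X → Z
  iso_ι : ∀ i, Isometry (ι i)
  iso_κ : Isometry κ
  base : Tendsto (fun i => ι i (s i)) atTop (𝓝 (κ t))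
  haus₁ : ∀ R ε : ℝ, 0 < R → 0 < ε →
    ∀ᶠ i in atTop, ∀ y ∈ ball (s i) R, ∃ z : T.X, dist (ι i y) (κ z) < ε
  haus₂ : ∀ R ε : ℝ, 0 < R → 0 < ε →
    ∀ᶠ i in atTop, ∀ z ∈ ball t R, ∃ y : (S i).X, dist (ι i y) (κ z) < ε
  weak : ∀ ψ : Z → ℝ, CBs ψ →
    Tendsto (fun i => ∫ x, ψ (ι i x) ∂(S i).m) atTop (𝓝 (∫ x, ψ (κ x) ∂T.m))

attribute [instance] PMGH.met PMGH.compl PMGH.sep

variable {S : ℕ → Space} {T : Space} {s : ∀ i, (S i).X} {t : T.X}

/-- Weak convergence of `f i ∈ L²(S i)` to `g ∈ L²(T)`: the norms are bounded and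
`f i m_i ⇀ g m` against `CBs(Z)`. -/
def PMGH.Weak (P : PMGH S T s t) (f : ∀ i, (S i).X → ℝ) (g : T.X → ℝ) : Prop :=
  (∀ i, MemLp (f i) 2 (S i).m) ∧ MemLp g 2 T.m ∧
    (∃ C : ℝ≥0, ∀ i, eLpNorm (f i) 2 (S i).m ≤ C) ∧
    ∀ ψ : P.Z → ℝ, CBs ψ →
      Tendsto (fun i => ∫ x, ψ (P.ι i x) * f i x ∂(S i).m) atTop
        (𝓝 (∫ x, ψ (P.κ x) * g x ∂T.m))

/-- Strong convergence: weak convergence and convergence of the norms. -/
def PMGH.Strong (P : PMGH S T s t) (f : ∀ i, (S i).X → ℝ) (g : T.X → ℝ) : Prop :=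
  P.Weak f g ∧ Tendsto (fun i => eLpNorm (f i) 2 (S i).m) atTop (𝓝 (eLpNorm g 2 T.m))

/-- Mosco convergence of the Cheeger energies. -/
def PMGH.Mosco (P : PMGH S T s t) : Prop :=
  (∀ (f : ∀ i, (S i).X → ℝ) (g : T.X → ℝ), P.Weak f g →
    Ch T g ≤ liminf (fun i => Ch (S i) (f i)) atTop) ∧
  (∀ g : T.X → ℝ, MemLp g 2 T.m → ∃ f : ∀ i, (S i).X → ℝ, P.Strong f g ∧
    Tendsto (fun i => Ch (S i) (f i)) atTop (𝓝 (Ch T g)))

end Pool.Agent.N288.MM
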