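import Pool.Agent.N288.MM.Cauchy

/-!
# Weighted lines: the derivative and the Cheeger energy
-/

set_option autoImplicit false

open MeasureTheory Filter Topology Set Metric
open scoped ENNReal NNReal

namespace Pool.Agent.N288.MM

lemma norm_tendsto {μ : Measure ℝ} {u : ℕ → ℝ → ℝ} {g : ℝ → ℝ}
    (hu : ∀ n, AEStronglyMeasurable (u n) μ) (hg : MemLp g 2 μ)
    (h : Tendsto (fun n => eLpNorm (fun x => u n x - g x) 2 μ) atTop (𝓝 0)) :
    Tendsto (fun n => eLpNorm (u n) 2 μ) atTop (𝓝 (eLpNorm g 2 μ)) := by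
  have hup : ∀ n, eLpNorm (u n) 2 μ ≤ eLpNorm (fun x => u n x - g x) 2 μ + eLpNorm g 2 μ := by
    intro n
    have := eLpNorm_add_le (p := 2) (μ := μ) (f := fun x => u n x - g x) (g := g)
      ((hu n).sub hg.1) hg.1 (by norm_num)
    refine le_trans (le_of_eq ?_) this
    congr 1
    funext x
    simp
  have hlo : ∀ n, eLpNorm g 2 μ ≤ eLpNorm (fun x => u n x - g x) 2 μ + eLpNorm (u n) 2 μ := by
    intro n
    have := eLpNorm_add_le (p := 2) (μ := μ) (f := fun x => g x - u n x)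
      (g := u n) (hg.1.sub (hu n)) (hu n) (by norm_num)
    refine le_trans (le_of_eq ?_) (this.trans (le_of_eq ?_))
    · congr 1
      funext x
      simp
    · congr 1
      exact eLpNorm_sub_comm g (u n) 2 μ
  have t1 : Tendsto (fun n => eLpNorm g 2 μ - eLpNorm (fun x => u n x - g x) 2 μ) atTop
      (𝓝 (eLpNorm g 2 μ)) := by
    have := ENNReal.Tendsto.sub (tendsto_const_nhds (x := eLpNorm g 2 μ)) h (Or.inl hg.2.ne)
    simpa using this
  have t2 := h.add_const (eLpNorm g 2 μ)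
  rw [zero_add] at t2
  exact tendsto_of_tendsto_of_tendsto_of_le_of_le t1 t2 (fun n => tsub_le_iff_left.2 (hlo n)) hup

variable {w : ℝ → ℝ}

lemma der_of_fin (hw : Weight w) {f : ℝ → ℝ} (hf : MemLp f 2 (mu w)) (h : Cw w f < ∞) :
    ∃ g, Der w f g ∧ Cw w f = Q w g / 2 := by
  obtain ⟨F, hF, hE⟩ := exists_opt h
  obtain ⟨g, hg, hgt, he⟩ := opt_cauchy hw hF hf h hE
  exact ⟨g, ⟨hf, hg, F, hF, hgt⟩, he⟩

lemma vol_of_mu (hw : Weight w) {u : ℕ → ℝ → ℝ}
    (h : Tendsto (fun n => eLpNorm (u n) 2 (mu w)) atTop (𝓝 0)) :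
    Tendsto (fun n => eLpNorm (u n) 2 volume) atTop (𝓝 0) :=
  tendsto_of_tendsto_of_tendsto_of_le_of_le tendsto_const_nhds h (fun _ => bot_le)
    fun _ => eLpNorm_mono_measure _ (vol_le hw)

lemma memLp_vol (hw : Weight w) {g : ℝ → ℝ} (h : MemLp g 2 (mu w)) : MemLp g 2 volume :=
  h.mono_measure (vol_le hw)

lemma memLp_mu (hw : Weight w) {g : ℝ → ℝ} (h : MemLp g 2 volume) : MemLp g 2 (mu w) :=
  (h.smul_measure (by simp)).mono_measure (le_vol hw)

lemma memLp_iint (hw : Weight w) {g : ℝ → ℝ} (h : MemLp g 2 (mu w)) (a b : ℝ) :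
    IntervalIntegrable g volume a b := by
  have h1 := (memLp_vol hw h).locallyIntegrable (by norm_num)
  exact (h1.integrableOn_isCompact isCompact_uIcc).mono_set uIoc_subset_uIcc |>
    intervalIntegrable_iff.mpr

lemma tends_int (hw : Weight w) {u : ℕ → ℝ → ℝ} {g : ℝ → ℝ}
    (hu : ∀ n a b, IntervalIntegrable (u n) volume a b) (hg : MemLp g 2 (mu w))
    (hm : ∀ n, AEStronglyMeasurable (u n) volume)
    (h : Tendsto (fun n => eLpNorm (fun x => u n x - g x) 2 (mu w)) atTop (𝓝 0)) (a b : ℝ) :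
    Tendsto (fun n => ∫ t in a..b, u n t) atTop (𝓝 (∫ t in a..b, g t)) := by
  have hgv := memLp_vol hw hg
  have key : ∀ a b : ℝ, a ≤ b →
      Tendsto (fun n => ∫ t in a..b, u n t) atTop (𝓝 (∫ t in a..b, g t)) := by
    intro a b hab
    simp only [intervalIntegral.integral_of_le hab]
    refine tendsto_integral_of_L1' _ ?_ (Eventually.of_forall fun n => ?_) ?_
    · exact hgv.1.restrict
    · exact (intervalIntegrable_iff_integrableOn_Ioc_of_le hab).1 (hu n a b)
    · have hb : ∀ n, eLpNorm (u n - g) 1 (volume.restrict (Ioc a b)) ≤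
          eLpNorm (fun x => u n x - g x) 2 volume * ENNReal.ofReal (b - a) ^ (1 / 2 : ℝ) := by
        intro n
        have h1 := eLpNorm_le_eLpNorm_mul_rpow_measure_univ (p := 1) (q := 2)
          (μ := volume.restrict (Ioc a b)) (f := u n - g) (by norm_num)
          (((hm n).sub hgv.1).restrict)
        refine h1.trans ?_
        have h2 : eLpNorm (u n - g) 2 (volume.restrict (Ioc a b)) ≤
            eLpNorm (fun x => u n x - g x) 2 volume := eLpNorm_mono_measure _ Measure.restrict_le_self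
        have h3 : (volume.restrict (Ioc a b)) univ = ENNReal.ofReal (b - a) := by simp
        rw [h3]
        have h4 : (1 / (1 : ℝ≥0∞).toReal - 1 / (2 : ℝ≥0∞).toReal) = (1 / 2 : ℝ) := by norm_num
        rw [h4]
        gcongr
      have h5 := ENNReal.Tendsto.mul_const (vol_of_mu hw h)
        (b := ENNReal.ofReal (b - a) ^ (1 / 2 : ℝ)) (Or.inr (by
          exact ENNReal.rpow_ne_top_of_nonneg (by norm_num) (by simp)))
      rw [zero_mul] at h5
      exact tendsto_of_tendsto_of_tendsto_of_le_of_le tendsto_const_nhds h5 (fun _ => bot_le) hb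
  rcases le_total a b with hab | hab
  · exact key a b hab
  · have := (key b a hab).neg
    simp only [← intervalIntegral.integral_symm] at this
    exact this

lemma Der.ftc (hw : Weight w) {f g : ℝ → ℝ} (h : Der w f g) :
    ∀ᵐ x, ∀ᵐ y, f y - f x = ∫ t in x..y, g t := by
  obtain ⟨hf, hg, F, hF, hd⟩ := h
  have h1 : TendstoInMeasure volume F atTop f :=
    tendstoInMeasure_of_tendsto_eLpNorm (p := 2) (by norm_num)
      (fun n => (memLp_vol hw (hF.1 n).2).1) (memLp_vol hw hf).1 (vol_of_mu hw hF.2)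
  obtain ⟨ns, hns, hae⟩ := h1.exists_seq_tendsto_ae
  filter_upwards [hae] with x hx
  filter_upwards [hae] with y hy
  have t1 : Tendsto (fun k => F (ns k) y - F (ns k) x) atTop (𝓝 (f y - f x)) := hy.sub hx
  have t2 := tends_int hw (u := fun n => deriv (F n)) (g := g) (fun n => (hF.1 n).1.intble) hg
    (fun n => (measurable_deriv _).aestronglyMeasurable) hd x y
  have t3 : Tendsto (fun k => F (ns k) y - F (ns k) x) atTop (𝓝 (∫ t in x..y, g t)) := by
    refine (t2.comp hns.tendsto_atTop).congr fun k => ?_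
    exact (hF.1 (ns k)).1.ftc x y
  exact tendsto_nhds_unique t1 t3

/-- a function with vanishing integrals on an interval vanishes there -/
lemma zero_of_int {h : ℝ → ℝ} (hl : LocallyIntegrable h) {p q x₀ : ℝ}
    (hz : ∀ y ∈ Ioo p q, ∫ t in x₀..y, h t = 0) : ∀ᵐ t, t ∈ Ioo p q → h t = 0 := by
  filter_upwards [LocallyIntegrable.ae_hasDerivAt_integral hl] with t ht htJ
  have h1 := ht x₀
  have h2 : HasDerivAt (fun x => ∫ t in x₀..x, h t) 0 t := by
    refine (hasDerivAt_const t (0 : ℝ)).congr_of_eventuallyEq ?_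
    filter_upwards [Ioo_mem_nhds htJ.1 htJ.2] with y hy using hz y hy
  exact h1.unique h2

/-- local uniqueness: if `f₁ = f₂` on an interval, the derivatives agree there -/
lemma Der.unique_on (hw : Weight w) {f₁ f₂ g₁ g₂ : ℝ → ℝ} (h₁ : Der w f₁ g₁) (h₂ : Der w f₂ g₂)
    {p q : ℝ} (he : ∀ x ∈ Ioo p q, f₁ x = f₂ x) : ∀ᵐ t, t ∈ Ioo p q → g₁ t = g₂ t := by
  rcases le_or_gt q p with hpq | hpq
  · exact Eventually.of_forall fun t ht => absurd (ht.1.trans ht.2) (not_lt.2 hpq)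
  have l1 := (memLp_vol hw h₁.2.1).locallyIntegrable (by norm_num)
  have l2 := (memLp_vol hw h₂.2.1).locallyIntegrable (by norm_num)
  have hpos : volume (Ioo p q) ≠ 0 := by
    rw [Real.volume_Ioo]
    simpa using hpq
  have hex : ∃ x ∈ Ioo p q, (∀ᵐ y, f₁ y - f₁ x = ∫ t in x..y, g₁ t) ∧
      (∀ᵐ y, f₂ y - f₂ x = ∫ t in x..y, g₂ t) := by
    have := (h₁.ftc hw).and (h₂.ftc hw)
    by_contra hcon
    apply hpos
    rw [← nonpos_iff_eq_zero, ← ae_iff.1 this]
    refine measure_mono fun x hx hh => ?_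
    exact hcon ⟨x, hx, hh.1, hh.2⟩
  obtain ⟨x, hx, hx1, hx2⟩ := hex
  have hcont : Continuous fun y => ∫ t in x..y, (g₁ t - g₂ t) := by
    refine intervalIntegral.continuous_primitive (fun a b => ?_) x
    exact (memLp_iint hw h₁.2.1 a b).sub (memLp_iint hw h₂.2.1 a b)
  have hz : ∀ y ∈ Ioo p q, ∫ t in x..y, (g₁ t - g₂ t) = 0 := by
    have hae : ∀ᵐ y, y ∈ Ioo p q → ∫ t in x..y, (g₁ t - g₂ t) = 0 := by
      filter_upwards [hx1, hx2] with y h3 h4 hy
      rw [intervalIntegral.integral_sub (memLp_iint hw h₁.2.1 x y) (memLp_iint hw h₂.2.1 x y),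
        ← h3, ← h4, he y hy, he x hx, sub_self]
    intro y hy
    by_contra hne
    have hopen : IsOpen (Ioo p q ∩ {y | ∫ t in x..y, (g₁ t - g₂ t) ≠ 0}) :=
      isOpen_Ioo.inter (isOpen_ne_fun hcont continuous_const)
    have hpos := hopen.measure_pos volume ⟨y, hy, hne⟩
    refine hpos.ne' ?_
    rw [← nonpos_iff_eq_zero, ← ae_iff.1 hae]
    refine measure_mono fun z hz => ?_
    intro hh
    exact hz.2 (hh hz.1)
  filter_upwards [zero_of_int (l1.sub l2) hz] with t ht htJ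
  exact sub_eq_zero.1 (ht htJ)

lemma Der.unique (hw : Weight w) {f g₁ g₂ : ℝ → ℝ} (h₁ : Der w f g₁) (h₂ : Der w f g₂) :
    ∀ᵐ t, g₁ t = g₂ t := by
  have h : ∀ n : ℕ, ∀ᵐ t, t ∈ Ioo (-(n : ℝ)) n → g₁ t = g₂ t := fun n =>
    h₁.unique_on hw h₂ fun _ _ => rfl
  filter_upwards [ae_all_iff.2 h] with t ht
  obtain ⟨n, hn⟩ := exists_nat_gt |t|
  exact ht n (abs_lt.1 hn)

lemma Der.add (hw : Weight w) {f₁ f₂ g₁ g₂ : ℝ → ℝ} (h₁ : Der w f₁ g₁) (h₂ : Der w f₂ g₂) :
    Der w (fun x => f₁ x + f₂ x) (fun x => g₁ x + g₂ x) := by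
  obtain ⟨hf1, hg1, F, hF, hFd⟩ := h₁
  obtain ⟨hf2, hg2, G, hG, hGd⟩ := h₂
  refine ⟨hf1.add hf2, hg1.add hg2, _, hF.add hG hf1 hf2, ?_⟩
  have h0 := hFd.add hGd
  rw [add_zero] at h0
  refine tendsto_of_tendsto_of_tendsto_of_le_of_le tendsto_const_nhds h0 (fun _ => bot_le)
    fun n => ?_
  have := eLpNorm_add_le (p := 2) (μ := mu w) (f := fun x => deriv (F n) x - g₁ x)
    (g := fun x => deriv (G n) x - g₂ x) ((measurable_deriv _).aestronglyMeasurable.sub hg1.1)
    ((measurable_deriv _).aestronglyMeasurable.sub hg2.1) (by norm_num)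
  refine le_trans (le_of_eq ?_) this
  refine eLpNorm_congr_ae ?_
  filter_upwards [(ae_iff_vol hw).2 (hF.1 n).1.ae_diff, (ae_iff_vol hw).2 (hG.1 n).1.ae_diff]
    with x h1 h2
  have := (h1.hasDerivAt.add h2.hasDerivAt).deriv
  show deriv (fun x => F n x + G n x) x - (g₁ x + g₂ x) =
    (deriv (F n) x - g₁ x) + (deriv (G n) x - g₂ x)
  have e : deriv (fun x => F n x + G n x) x = deriv (F n) x + deriv (G n) x := this
  rw [e]
  ring

lemma Der.smul (hw : Weight w) {f g : ℝ → ℝ} (c : ℝ) (h : Der w f g) :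
    Der w (fun x => c * f x) (fun x => c * g x) := by
  obtain ⟨hf, hg, F, hF, hFd⟩ := h
  refine ⟨hf.const_mul c, hg.const_mul c, _, hF.smul c, ?_⟩
  have h0 := ENNReal.Tendsto.const_mul (a := ‖c‖ₑ) hFd (Or.inr (by simp))
  rw [mul_zero] at h0
  refine h0.congr fun n => ?_
  have := eLpNorm_const_smul c (fun x => deriv (F n) x - g x) 2 (mu w)
  refine this.symm.trans ?_
  refine eLpNorm_congr_ae ?_
  filter_upwards [(ae_iff_vol hw).2 (hF.1 n).1.ae_diff] with x h1
  have e : deriv (fun x => c * F n x) x = c * deriv (F n) x := (h1.hasDerivAt.const_mul c).deriv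
  show c * (deriv (F n) x - g x) = deriv (fun x => c * F n x) x - c * g x
  rw [e]
  ring

lemma Der.sub (hw : Weight w) {f₁ f₂ g₁ g₂ : ℝ → ℝ} (h₁ : Der w f₁ g₁) (h₂ : Der w f₂ g₂) :
    Der w (fun x => f₁ x - f₂ x) (fun x => g₁ x - g₂ x) := by
  have := h₁.add hw (h₂.smul hw (-1))
  have e1 : (fun x => f₁ x + -1 * f₂ x) = fun x => f₁ x - f₂ x := by funext x; ring
  have e2 : (fun x => g₁ x + -1 * g₂ x) = fun x => g₁ x - g₂ x := by funext x; ring
  rwa [e1, e2] at this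

lemma Der.of_lip {f : ℝ → ℝ} (hf : IsLip f) (h1 : MemLp f 2 (mu w))
    (h2 : MemLp (deriv f) 2 (mu w)) : Der w f (deriv f) := by
  refine ⟨h1, h2, fun _ => f, ⟨fun _ => ⟨hf, h1⟩, ?_⟩, ?_⟩
  · simp
  · simp

lemma Ew_tendsto (hw : Weight w) {F : ℕ → ℝ → ℝ} {g : ℝ → ℝ} (hF : ∀ n, IsLip (F n))
    (hg : MemLp g 2 (mu w))
    (h : Tendsto (fun n => eLpNorm (fun x => deriv (F n) x - g x) 2 (mu w)) atTop (𝓝 0)) :
    Tendsto (fun n => Ew w (F n)) atTop (𝓝 (Q w g / 2)) := by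
  have h8 := norm_tendsto (u := fun n => deriv (F n))
    (fun n => (measurable_deriv _).aestronglyMeasurable) hg h
  have h10 := ENNReal.Tendsto.div_const (ENNReal.Tendsto.pow (n := 2) h8) (b := 2)
    (Or.inr (by simp))
  rw [eLpNorm_sq'] at h10
  refine h10.congr fun n => ?_
  rw [eLpNorm_sq', Ew_eq hw (hF n)]

lemma Q_lt_top {g : ℝ → ℝ} (hg : MemLp g 2 (mu w)) : Q w g < ∞ := by
  rw [← eLpNorm_sq']
  exact ENNReal.pow_lt_top hg.2

lemma half_lt_top {x : ℝ≥0∞} (h : x < ∞) : x / 2 < ∞ := ENNReal.div_lt_top h.ne (by simp)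

lemma Der.Cw_eq (hw : Weight w) {f g : ℝ → ℝ} (h : Der w f g) : Cw w f = Q w g / 2 := by
  obtain ⟨F, hF, hd⟩ := h.2.2
  have h1 : Cw w f ≤ Q w g / 2 := by
    refine (Cw_le hF).trans (le_of_eq ?_)
    exact (Ew_tendsto hw (fun n => (hF.1 n).1) h.2.1 hd).liminf_eq
  have h2 : Cw w f < ∞ := lt_of_le_of_lt h1 (half_lt_top (Q_lt_top h.2.1))
  obtain ⟨g', hg', he⟩ := der_of_fin hw h.1 h2
  rw [he, Q_congr hw (h.unique hw hg')]

/-- `IsGrad` on the weighted line, with real arguments -/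
def IsGradW (w f G : ℝ → ℝ) : Prop :=
  MemLp G 2 (mu w) ∧ Cw w f = Q w G / 2 ∧ ∃ F : ℕ → ℝ → ℝ, Ap w F f ∧
    Tendsto (fun n => eLpNorm (fun x => (lip (F n) x).toReal - G x) 2 (mu w)) atTop (𝓝 0)

lemma isGrad_line (hw : Weight w) (f G : ℝ → ℝ) : IsGrad (line w hw) f G ↔ IsGradW w f G := Iff.rfl

lemma isGrad_eq (hw : Weight w) {f G g : ℝ → ℝ} (h : Der w f g) (hG : IsGradW w f G) :
    ∀ᵐ x, G x = |g x| := by
  obtain ⟨hG2, hGe, F, hF, hFd⟩ := hG
  have hFd' : Tendsto (fun n => eLpNorm (fun x => |deriv (F n) x| - G x) 2 (mu w)) atTop (𝓝 0) := by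
    refine hFd.congr fun n => ?_
    refine eLpNorm_congr_ae ?_
    filter_upwards [(ae_iff_vol hw).2 (lip_ae (hF.1 n).1)] with x hx
    rw [hx, ENNReal.toReal_ofReal (abs_nonneg _)]
  have hma : ∀ n, AEStronglyMeasurable (fun x => |deriv (F n) x|) (mu w) := fun n =>
    (continuous_abs.measurable.comp (measurable_deriv (F n))).aestronglyMeasurable
  have hCf : Cw w f < ∞ := by rw [hGe]; exact half_lt_top (Q_lt_top hG2)
  have hE : Tendsto (fun n => Ew w (F n)) atTop (𝓝 (Cw w f)) := by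
    have h8 := norm_tendsto (u := fun n x => |deriv (F n) x|) hma hG2 hFd'
    have h10 := ENNReal.Tendsto.div_const (ENNReal.Tendsto.pow (n := 2) h8) (b := 2)
      (Or.inr (by simp))
    rw [eLpNorm_sq', ← hGe] at h10
    refine h10.congr fun n => ?_
    rw [Ew_eq hw (hF.1 n).1, ← eLpNorm_sq']
    have e : eLpNorm (deriv (F n)) 2 (mu w) = eLpNorm (fun x => |deriv (F n) x|) 2 (mu w) :=
      eLpNorm_congr_norm_ae (Eventually.of_forall fun x => by simp)
    rw [e]
  obtain ⟨g', hg', hgt, he⟩ := opt_cauchy hw hF h.1 hCf hE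
  have hun := h.unique hw ⟨h.1, hg', F, hF, hgt⟩
  have habs : Tendsto (fun n => eLpNorm (fun x => |g' x| - |deriv (F n) x|) 2 (mu w)) atTop
      (𝓝 0) := by
    refine tendsto_of_tendsto_of_tendsto_of_le_of_le tendsto_const_nhds hgt (fun _ => bot_le)
      fun n => ?_
    refine eLpNorm_mono fun x => ?_
    rw [Real.norm_eq_abs, Real.norm_eq_abs, ← abs_neg (deriv (F n) x - g' x), neg_sub]
    exact abs_abs_sub_abs_le_abs_sub _ _
  have hga : AEStronglyMeasurable (fun x => |g' x|) (mu w) :=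
    continuous_abs.comp_aestronglyMeasurable hg'.1
  have hz : eLpNorm (fun x => |g' x| - G x) 2 (mu w) = 0 := by
    have h0 := habs.add hFd'
    rw [add_zero] at h0
    refine le_antisymm (ge_of_tendsto' h0 fun n => ?_) bot_le
    have := eLpNorm_add_le (p := 2) (μ := mu w) (f := fun x => |g' x| - |deriv (F n) x|)
      (g := fun x => |deriv (F n) x| - G x)
      (hga.sub (hma n)) ((hma n).sub hG2.1) (by norm_num)
    refine le_trans (le_of_eq ?_) this
    congr 1
    funext x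
    simp
  have hz' : (fun x => |g' x| - G x) =ᵐ[mu w] 0 :=
    (eLpNorm_eq_zero_iff (f := fun x => |g' x| - G x) (hga.sub hG2.1) (by norm_num)).1 hz
  filter_upwards [(ae_iff_vol hw).1 hz', hun] with x h1 h2
  have h3 : |g' x| - G x = 0 := h1
  rw [h2]
  linarith

lemma Cw_par (hw : Weight w) {f g : ℝ → ℝ} (hf : MemLp f 2 (mu w)) (hg : MemLp g 2 (mu w)) :
    Cw w (fun x => f x + g x) + Cw w (fun x => f x - g x) = 2 * Cw w f + 2 * Cw w g := by
  by_cases h : Cw w f < ∞ ∧ Cw w g < ∞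
  · obtain ⟨u, hu, hue⟩ := der_of_fin hw hf h.1
    obtain ⟨v, hv, hve⟩ := der_of_fin hw hg h.2
    rw [(hu.add hw hv).Cw_eq hw, (hu.sub hw hv).Cw_eq hw, hue, hve, ← ENNReal.add_div,
      Q_par hu.2.1.1.aemeasurable hv.2.1.1.aemeasurable, ENNReal.add_div, mul_div_assoc,
      mul_div_assoc]
  · have h1 : 2 * Cw w f + 2 * Cw w g = ∞ := by
      rw [not_and_or, not_lt, not_lt, top_le_iff, top_le_iff] at h
      rcases h with h | h <;> rw [h] <;> simp [ENNReal.mul_top]
    rw [h1]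
    by_contra hne
    have h2 := ENNReal.add_ne_top.1 hne
    obtain ⟨u, hu, -⟩ := der_of_fin hw (hf.add hg) h2.1.lt_top
    obtain ⟨v, hv, -⟩ := der_of_fin hw (hf.sub hg) h2.2.lt_top
    have hu : Der w (fun x => f x + g x) u := hu
    have hv : Der w (fun x => f x - g x) v := hv
    have h3 := (hu.add hw hv).smul hw (1 / 2)
    have h4 := (hu.sub hw hv).smul hw (1 / 2)
    have e3 : (fun x => 1 / 2 * (f x + g x + (f x - g x))) = f := by funext x; ring
    have e4 : (fun x => 1 / 2 * (f x + g x - (f x - g x))) = g := by funext x; ring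
    rw [e3] at h3
    rw [e4] at h4
    refine h ⟨?_, ?_⟩
    · rw [h3.Cw_eq hw]; exact half_lt_top (Q_lt_top h3.2.1)
    · rw [h4.Cw_eq hw]; exact half_lt_top (Q_lt_top h4.2.1)

/-- the weighted line is infinitesimally Hilbertian -/
lemma line_IH (hw : Weight w) : IH (line w hw) := fun _ _ hf hg => Cw_par hw hf hg

end Pool.Agent.N288.MM
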