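import Pool.Agent.N288.MM.Counter

/-!
# Convergence of the weighted lines, failure of Mosco convergence
-/

set_option autoImplicit false

open MeasureTheory Filter Topology Set Metric
open scoped ENNReal NNReal Real

namespace Pool.Agent.N288.MM

lemma cbs_integrable {ψ : ℝ → ℝ} (h : CBs ψ) : Integrable ψ := by
  obtain ⟨hc, -, hb⟩ := h
  refine hc.integrable_of_hasCompactSupport ?_
  exact isCompact_of_isClosed_isBounded (isClosed_tsupport ψ) hb.closure

lemma int_wN {ψ : ℝ → ℝ} (h : Integrable ψ) (N : ℕ) :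
    ∫ x, ψ x ∂(mu (wN N)) = 3 / 2 * (∫ x, ψ x) + (∫ x, Real.cos (fr N * x) * ψ x) / 2 := by
  rw [int_mu (wN_weight N)]
  have hcos : Integrable fun x => Real.cos (fr N * x) * ψ x := by
    refine h.norm.mono' ((by fun_prop : Continuous fun x : ℝ =>
      Real.cos (fr N * x)).aestronglyMeasurable.mul h.1) (Eventually.of_forall fun x => ?_)
    rw [norm_mul]
    calc ‖Real.cos (fr N * x)‖ * ‖ψ x‖ ≤ 1 * ‖ψ x‖ := by
          gcongr
          exact Real.abs_cos_le_one _
      _ = ‖ψ x‖ := one_mul _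
  rw [← integral_const_mul, ← integral_div, ← integral_add (h.const_mul _) (hcos.div_const _)]
  refine integral_congr_ae (Eventually.of_forall fun x => ?_)
  show wN N x * ψ x = 3 / 2 * ψ x + Real.cos (fr N * x) * ψ x / 2
  unfold wN
  ring

lemma weak_int {ψ : ℝ → ℝ} (h : Integrable ψ) :
    Tendsto (fun N => ∫ x, ψ x ∂(mu (wN N))) atTop (𝓝 (∫ x, ψ x ∂(mu wI))) := by
  have e : ∫ x, ψ x ∂(mu wI) = 3 / 2 * (∫ x, ψ x) + 0 / 2 := by
    rw [int_mu wI_weight]
    unfold wI
    rw [integral_const_mul]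
    ring
  rw [e]
  refine Tendsto.congr (fun N => (int_wN h N).symm) ?_
  exact tendsto_const_nhds.add ((rl h).div_const 2)

lemma tent_memLp {w : ℝ → ℝ} (hw : Weight w) : MemLp tent 2 (mu w) := bd_sg.memLp_prim hw

lemma fN_memLp {w : ℝ → ℝ} (hw : Weight w) (N : ℕ) : MemLp (fN N) 2 (mu w) :=
  (bd_thN N).memLp_prim hw

lemma tent_cont : Continuous tent := bd_sg.isLip.cont

lemma fN_cont (N : ℕ) : Continuous (fN N) := (bd_thN N).isLip.cont

lemma mu_Icc {w : ℝ → ℝ} (hw : Weight w) : mu w (Icc (-1) 1) ≤ 4 := by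
  refine (le_vol hw _).trans ?_
  simp only [Measure.smul_apply, smul_eq_mul, Real.volume_Icc]
  rw [show (2 : ℝ≥0∞) = ENNReal.ofReal 2 by simp, ← ENNReal.ofReal_mul (by norm_num),
    show (4 : ℝ≥0∞) = ENNReal.ofReal 4 by simp]
  apply le_of_eq; congr 1; norm_num

lemma fN_norm {w : ℝ → ℝ} (hw : Weight w) (N : ℕ) :
    eLpNorm (fN N) 2 (mu w) ≤ ((64 : ℝ≥0) : ℝ≥0∞) := by
  have h1 : eLpNorm (fN N) 2 (mu w) ≤
      eLpNorm ((Icc (-1 : ℝ) 1).indicator fun _ => (4 : ℝ)) 2 (mu w) :=
    eLpNorm_mono_real fun x => by rw [Real.norm_eq_abs]; exact fN_abs N x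
  refine h1.trans ?_
  rw [eLpNorm_indicator_const measurableSet_Icc (by norm_num) (by norm_num)]
  have h2 : mu w (Icc (-1) 1) ^ (1 / (2 : ℝ≥0∞).toReal) ≤ 4 ^ (1 / (2 : ℝ≥0∞).toReal) := by
    gcongr
    exact mu_Icc hw
  have h3 : (4 : ℝ≥0∞) ^ (1 / (2 : ℝ≥0∞).toReal) ≤ 4 ^ (1 : ℝ) := by
    refine ENNReal.rpow_le_rpow_of_exponent_le (by norm_num) ?_
    simp only [ENNReal.toReal_ofNat]
    norm_num
  have h4 : ‖(4 : ℝ)‖ₑ = 4 := by
    rw [← ofReal_norm]; simp
  rw [h4]
  calc (4 : ℝ≥0∞) * mu w (Icc (-1) 1) ^ (1 / (2 : ℝ≥0∞).toReal) ≤ 4 * 4 ^ (1 : ℝ) := by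
        gcongr
        exact h2.trans h3
    _ ≤ ((64 : ℝ≥0) : ℝ≥0∞) := by
        rw [ENNReal.rpow_one]
        norm_num

lemma weak_fN {ψ : ℝ → ℝ} (h : CBs ψ) :
    Tendsto (fun N => ∫ x, ψ x * fN N x ∂(mu (wN N))) atTop (𝓝 (∫ x, ψ x * tent x ∂(mu wI))) := by
  obtain ⟨hc, ⟨C, hC⟩, hb⟩ := h
  have hC0 : 0 ≤ C := (abs_nonneg _).trans (hC 0)
  have hcs : HasCompactSupport ψ :=
    isCompact_of_isClosed_isBounded (isClosed_tsupport ψ) hb.closure
  have hi : ∀ {g : ℝ → ℝ}, Continuous g → ∀ {w : ℝ → ℝ}, Weight w →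
      Integrable (fun x => ψ x * g x) (mu w) := by
    intro g hg w hw
    have h1 : Integrable (fun x => ψ x * g x) volume :=
      (hc.mul hg).integrable_of_hasCompactSupport hcs.mul_right
    have h2 : Integrable (fun x => ψ x * g x) ((2 : ℝ≥0∞) • (volume : Measure ℝ)) :=
      h1.smul_measure (by norm_num)
    exact h2.mono_measure (le_vol hw)
  have h1 : Integrable (fun x => ψ x * tent x) :=
    (hc.mul tent_cont).integrable_of_hasCompactSupport hcs.mul_right
  have h2 := weak_int h1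
  have h3 : Tendsto (fun N => ∫ x, ψ x * (fN N x - tent x) ∂(mu (wN N))) atTop (𝓝 0) := by
    have hz : Tendsto (fun N : ℕ => C * (1 / ((N : ℝ) + 1)) * 4) atTop (𝓝 0) := by
      have := (tendsto_one_div_add_atTop_nhds_zero_nat (𝕜 := ℝ)).const_mul C |>.mul_const 4
      simpa using this
    refine squeeze_zero_norm (fun N => ?_) hz
    have hpos : (0 : ℝ) ≤ C * (1 / ((N : ℝ) + 1)) := by positivity
    calc ‖∫ x, ψ x * (fN N x - tent x) ∂(mu (wN N))‖
        ≤ ∫ x, ‖ψ x * (fN N x - tent x)‖ ∂(mu (wN N)) := norm_integral_le_integral_norm _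
      _ ≤ ∫ x, (Icc (-1 : ℝ) 1).indicator (fun _ => C * (1 / ((N : ℝ) + 1))) x ∂(mu (wN N)) := by
          refine integral_mono_of_nonneg (Eventually.of_forall fun x => norm_nonneg _) ?_
            (Eventually.of_forall fun x => ?_)
          · refine (integrable_indicator_iff measurableSet_Icc).2 ?_
            refine integrableOn_const ?_
            exact ((mu_Icc (wN_weight N)).trans_lt (by norm_num)).ne
          · show ‖ψ x * (fN N x - tent x)‖ ≤ _
            rw [norm_mul, Real.norm_eq_abs, Real.norm_eq_abs]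
            have hd := diff_le N x
            by_cases hx : x ∈ Icc (-1 : ℝ) 1
            · rw [indicator_of_mem hx] at hd ⊢
              exact mul_le_mul (hC x) hd (abs_nonneg _) hC0
            · rw [indicator_of_notMem hx] at hd ⊢
              have : |fN N x - tent x| = 0 := le_antisymm hd (abs_nonneg _)
              rw [this, mul_zero]
      _ = (mu (wN N) (Icc (-1) 1)).toReal * (C * (1 / ((N : ℝ) + 1))) := by
          rw [integral_indicator measurableSet_Icc, setIntegral_const, smul_eq_mul]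
          rfl
      _ ≤ C * (1 / ((N : ℝ) + 1)) * 4 := by
          rw [mul_comm]
          refine mul_le_mul_of_nonneg_left ?_ hpos
          exact ENNReal.toReal_le_of_le_ofReal (by norm_num)
            ((mu_Icc (wN_weight N)).trans (by simp))
  have h4 := h2.add h3
  rw [add_zero] at h4
  refine h4.congr fun N => ?_
  have hw := wN_weight N
  rw [← integral_add (hi tent_cont hw) (hi (g := fun x => fN N x - tent x)
    ((fN_cont N).sub tent_cont) hw)]
  refine integral_congr_ae (Eventually.of_forall fun x => ?_)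
  show ψ x * tent x + ψ x * (fN N x - tent x) = ψ x * fN N x
  ring

end Pool.Agent.N288.MM
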