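import Pool.Agent.N288.MM.Defs

/-!
# Weighted lines: the Cheeger energy
-/

set_option autoImplicit false

open MeasureTheory Filter Topology Set Metric
open scoped ENNReal NNReal

namespace Pool.Agent.N288.MM

structure Weight (w : ℝ → ℝ) : Prop where
  meas : Measurable w
  one_le : ∀ x, 1 ≤ w x
  le_two : ∀ x, w x ≤ 2

noncomputable def mu (w : ℝ → ℝ) : Measure ℝ := volume.withDensity fun x => ENNReal.ofReal (w x)

lemma vol_le {w : ℝ → ℝ} (hw : Weight w) : (volume : Measure ℝ) ≤ mu w := by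
  calc (volume : Measure ℝ) = volume.withDensity 1 := withDensity_one.symm
    _ ≤ mu w := by
      refine withDensity_mono (Eventually.of_forall fun x => ?_)
      simpa using ENNReal.ofReal_le_ofReal (hw.one_le x)

lemma le_vol {w : ℝ → ℝ} (hw : Weight w) : mu w ≤ (2 : ℝ≥0∞) • (volume : Measure ℝ) := by
  unfold mu
  rw [← withDensity_const]
  refine withDensity_mono (Eventually.of_forall fun x => ?_)
  have := ENNReal.ofReal_le_ofReal (hw.le_two x)
  simpa using this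

lemma ae_iff_vol {w : ℝ → ℝ} (hw : Weight w) {p : ℝ → Prop} :
    (∀ᵐ x ∂(mu w), p x) ↔ ∀ᵐ x, p x := by
  constructor
  · intro h
    exact ae_mono (vol_le hw) h
  · intro h
    exact (withDensity_absolutelyContinuous _ _).ae_le h

lemma aesm_iff {w : ℝ → ℝ} (hw : Weight w) {f : ℝ → ℝ} :
    AEStronglyMeasurable f (mu w) ↔ AEStronglyMeasurable f volume := by
  constructor
  · intro h; exact h.mono_measure (vol_le hw)
  · intro h; exact h.mono_ac (withDensity_absolutelyContinuous _ _)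

noncomputable def line (w : ℝ → ℝ) (hw : Weight w) : Space where
  X := ℝ
  m := mu w
  ball_pos x r hr := lt_of_lt_of_le (measure_ball_pos volume x hr) (vol_le hw _)
  ball_fin x r := lt_of_le_of_lt (le_vol hw _) (by
    simp only [Measure.smul_apply, smul_eq_mul]
    exact ENNReal.mul_lt_top (by simp) measure_ball_lt_top)

lemma mu_ball_le {w : ℝ → ℝ} (hw : Weight w) (x r : ℝ) :
    mu w (ball x r) ≤ ENNReal.ofReal (4 * r) := by
  refine (le_vol hw _).trans ?_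
  simp only [Measure.smul_apply, smul_eq_mul, Real.volume_ball]
  rw [show (2 : ℝ≥0∞) = ENNReal.ofReal 2 by simp, ← ENNReal.ofReal_mul (by norm_num)]
  apply le_of_eq; congr 1; ring

lemma le_mu_ball {w : ℝ → ℝ} (hw : Weight w) (x r : ℝ) :
    ENNReal.ofReal (2 * r) ≤ mu w (ball x r) := by
  refine le_trans ?_ (vol_le hw _)
  rw [Real.volume_ball]

/-- `∫ g² dm` -/
noncomputable def Q (w : ℝ → ℝ) (g : ℝ → ℝ) : ℝ≥0∞ := ∫⁻ x, ENNReal.ofReal (g x ^ 2) ∂(mu w)

lemma eLpNorm_sq (μ : Measure ℝ) (g : ℝ → ℝ) :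
    eLpNorm g 2 μ ^ 2 = ∫⁻ x, ENNReal.ofReal (g x ^ 2) ∂μ := by
  rw [eLpNorm_eq_lintegral_rpow_enorm_toReal (by norm_num) (by norm_num)]
  simp only [ENNReal.toReal_ofNat]
  rw [← ENNReal.rpow_natCast, ← ENNReal.rpow_mul]
  norm_num
  refine lintegral_congr fun x => ?_
  rw [← ofReal_norm, ← ENNReal.ofReal_pow (norm_nonneg _), Real.norm_eq_abs, sq_abs]

lemma eLpNorm_sq' (w g : ℝ → ℝ) : eLpNorm g 2 (mu w) ^ 2 = Q w g := eLpNorm_sq _ _

lemma Q_congr {w : ℝ → ℝ} (hw : Weight w) {f g : ℝ → ℝ} (h : ∀ᵐ x, f x = g x) : Q w f = Q w g := by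
  refine lintegral_congr_ae ?_
  filter_upwards [(ae_iff_vol hw).2 h] with x hx
  rw [hx]

lemma Q_par {w : ℝ → ℝ} {u v : ℝ → ℝ} (hu : AEMeasurable u (mu w)) (hv : AEMeasurable v (mu w)) :
    Q w (fun x => u x + v x) + Q w (fun x => u x - v x) = 2 * Q w u + 2 * Q w v := by
  unfold Q
  rw [← lintegral_add_left' (by fun_prop), ← lintegral_const_mul'' _ (by fun_prop),
    ← lintegral_const_mul'' _ (by fun_prop), ← lintegral_add_left' (by fun_prop)]
  refine lintegral_congr fun x => ?_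
  have h2 : (2 : ℝ≥0∞) = ENNReal.ofReal 2 := by simp
  rw [h2, ← ENNReal.ofReal_mul (by norm_num), ← ENNReal.ofReal_mul (by norm_num),
    ← ENNReal.ofReal_add (by positivity) (by positivity),
    ← ENNReal.ofReal_add (by positivity) (by positivity)]
  congr 1; ring

lemma Q_smul {w : ℝ → ℝ} {u : ℝ → ℝ} (c : ℝ) :
    Q w (fun x => c * u x) = ENNReal.ofReal (c ^ 2) * Q w u := by
  unfold Q
  rw [← lintegral_const_mul' _ _ (by simp)]
  refine lintegral_congr fun x => ?_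
  rw [← ENNReal.ofReal_mul (by positivity)]
  congr 1; ring

lemma lip_eq {F : ℝ → ℝ} {x c : ℝ} (h : HasDerivAt F c x) : lip F x = ENNReal.ofReal |c| := by
  unfold lip
  have h1 := hasDerivAt_iff_tendsto_slope.1 h
  have h2 : Tendsto (fun y => |F y - F x| / dist y x) (𝓝[≠] x) (𝓝 |c|) := by
    refine h1.abs.congr fun y => ?_
    rw [slope_def_field, abs_div, Real.dist_eq]
  exact ((ENNReal.continuous_ofReal.tendsto _).comp h2).limsup_eq

lemma IsLip.ae_diff {F : ℝ → ℝ} (hF : IsLip F) : ∀ᵐ x, DifferentiableAt ℝ F x := by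
  obtain ⟨K, hK⟩ := hF
  exact hK.ae_differentiableAt

lemma lip_ae {F : ℝ → ℝ} (hF : IsLip F) : ∀ᵐ x, lip F x = ENNReal.ofReal |deriv F x| := by
  filter_upwards [hF.ae_diff] with x hx using lip_eq hx.hasDerivAt

/-- the energy of the weighted line, with real arguments -/
noncomputable def Ew (w : ℝ → ℝ) (F : ℝ → ℝ) : ℝ≥0∞ := (∫⁻ x, lip F x ^ 2 ∂(mu w)) / 2

lemma energy_line {w : ℝ → ℝ} (hw : Weight w) (F : ℝ → ℝ) : energy (line w hw) F = Ew w F := rfl

lemma Ew_eq {w : ℝ → ℝ} (hw : Weight w) {F : ℝ → ℝ} (hF : IsLip F) :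
    Ew w F = Q w (deriv F) / 2 := by
  unfold Ew Q
  congr 1
  refine lintegral_congr_ae ?_
  filter_upwards [(ae_iff_vol hw).2 (lip_ae hF)] with x hx
  rw [hx, ← ENNReal.ofReal_pow (abs_nonneg _), sq_abs]

lemma IsLip.ftc {F : ℝ → ℝ} (hF : IsLip F) (x y : ℝ) : ∫ t in x..y, deriv F t = F y - F x := by
  obtain ⟨K, hK⟩ := hF
  exact (hK.lipschitzOnWith.absolutelyContinuousOnInterval).integral_deriv_eq_sub

lemma IsLip.intble {F : ℝ → ℝ} (hF : IsLip F) (x y : ℝ) :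
    IntervalIntegrable (deriv F) volume x y := by
  obtain ⟨K, hK⟩ := hF
  exact (hK.lipschitzOnWith.absolutelyContinuousOnInterval).intervalIntegrable_deriv

/-- approximation by Lipschitz functions on the weighted line -/
def Ap (w : ℝ → ℝ) (F : ℕ → ℝ → ℝ) (f : ℝ → ℝ) : Prop :=
  (∀ n, IsLip (F n) ∧ MemLp (F n) 2 (mu w)) ∧
    Tendsto (fun n => eLpNorm (fun x => F n x - f x) 2 (mu w)) atTop (𝓝 0)

lemma approx_line {w : ℝ → ℝ} (hw : Weight w) (F : ℕ → ℝ → ℝ) (f : ℝ → ℝ) :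
    Approx (line w hw) F f ↔ Ap w F f := Iff.rfl

/-- the Cheeger energy of the weighted line, with real arguments -/
noncomputable def Cw (w : ℝ → ℝ) (f : ℝ → ℝ) : ℝ≥0∞ :=
  ⨅ (F : ℕ → ℝ → ℝ) (_ : Ap w F f), liminf (fun n => Ew w (F n)) atTop

lemma Ch_line {w : ℝ → ℝ} (hw : Weight w) (f : ℝ → ℝ) : Ch (line w hw) f = Cw w f := rfl

/-- `f` has derivative `g` -/
def Der (w : ℝ → ℝ) (f g : ℝ → ℝ) : Prop :=
  MemLp f 2 (mu w) ∧ MemLp g 2 (mu w) ∧ ∃ F : ℕ → ℝ → ℝ, Ap w F f ∧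
    Tendsto (fun n => eLpNorm (fun x => deriv (F n) x - g x) 2 (mu w)) atTop (𝓝 0)

section approx

variable {w : ℝ → ℝ}

lemma IsLip.add' {F G : ℝ → ℝ} (hF : IsLip F) (hG : IsLip G) : IsLip fun x => F x + G x := by
  obtain ⟨K, hK⟩ := hF
  obtain ⟨L, hL⟩ := hG
  exact ⟨K + L, hK.add hL⟩

lemma IsLip.smul' {F : ℝ → ℝ} (c : ℝ) (hF : IsLip F) : IsLip fun x => c * F x := by
  obtain ⟨K, hK⟩ := hF
  refine ⟨‖c‖₊ * K, LipschitzWith.of_dist_le_mul fun x y => ?_⟩
  have := hK.dist_le_mul x y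
  rw [Real.dist_eq, ← mul_sub, abs_mul]
  rw [Real.dist_eq] at this
  push_cast
  rw [Real.norm_eq_abs, mul_assoc]
  exact mul_le_mul_of_nonneg_left this (abs_nonneg c)

lemma Ap.add {F G : ℕ → ℝ → ℝ} {f g : ℝ → ℝ} (hF : Ap w F f)
    (hG : Ap w G g) (hf : MemLp f 2 (mu w)) (hg : MemLp g 2 (mu w)) :
    Ap w (fun n x => F n x + G n x) (fun x => f x + g x) := by
  refine ⟨fun n => ⟨(hF.1 n).1.add' (hG.1 n).1, (hF.1 n).2.add (hG.1 n).2⟩, ?_⟩
  have h0 := hF.2.add hG.2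
  rw [add_zero] at h0
  refine tendsto_of_tendsto_of_tendsto_of_le_of_le tendsto_const_nhds h0 (fun _ => bot_le)
    fun n => ?_
  have := eLpNorm_add_le (p := 2) (μ := mu w) (f := fun x => F n x - f x)
    (g := fun x => G n x - g x) ((hF.1 n).2.1.sub hf.1) ((hG.1 n).2.1.sub hg.1) (by norm_num)
  refine le_trans (le_of_eq ?_) this
  congr 1
  funext x
  show F n x + G n x - (f x + g x) = F n x - f x + (G n x - g x)
  ring

lemma Ap.smul {F : ℕ → ℝ → ℝ} {f : ℝ → ℝ} (c : ℝ) (hF : Ap w F f) :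
    Ap w (fun n x => c * F n x) (fun x => c * f x) := by
  refine ⟨fun n => ⟨(hF.1 n).1.smul' c, (hF.1 n).2.const_mul c⟩, ?_⟩
  have h0 := ENNReal.Tendsto.const_mul (a := ‖c‖ₑ) hF.2 (Or.inr (by simp))
  rw [mul_zero] at h0
  refine h0.congr fun n => ?_
  have := eLpNorm_const_smul c (fun x => F n x - f x) 2 (mu w)
  refine this.symm.trans ?_
  congr 1
  funext x
  show c * (F n x - f x) = c * F n x - c * f x
  ring

lemma Ap.comp {F : ℕ → ℝ → ℝ} {f : ℝ → ℝ} (hF : Ap w F f) {a : ℕ → ℕ}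
    (ha : Tendsto a atTop atTop) : Ap w (fun n => F (a n)) f :=
  ⟨fun n => hF.1 (a n), hF.2.comp ha⟩

lemma Cw_le {F : ℕ → ℝ → ℝ} {f : ℝ → ℝ} (hF : Ap w F f) :
    Cw w f ≤ liminf (fun n => Ew w (F n)) atTop :=
  iInf₂_le F hF

/-- existence of optimal sequences -/
lemma exists_opt {f : ℝ → ℝ} (h : Cw w f < ∞) :
    ∃ F : ℕ → ℝ → ℝ, Ap w F f ∧
      Tendsto (fun n => Ew w (F n)) atTop (𝓝 (Cw w f)) := by
  set a := Cw w f with ha
  have key : ∀ n : ℕ, ∃ F : ℝ → ℝ, IsLip F ∧ MemLp F 2 (mu w) ∧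
      eLpNorm (fun x => F x - f x) 2 (mu w) < 1 / (n + 1) ∧
      Ew w F < a + 1 / (n + 1) := by
    intro n
    have hn : (0 : ℝ≥0∞) < 1 / (n + 1) := by
      refine ENNReal.div_pos (by simp) ?_
      exact ENNReal.add_ne_top.2 ⟨by simp, by simp⟩
    have h1 : Cw w f < a + 1 / (n + 1) := ENNReal.lt_add_right h.ne hn.ne'
    unfold Cw at h1
    simp only [iInf_lt_iff] at h1
    obtain ⟨F, hF, hlt⟩ := h1
    have h2 := frequently_lt_of_liminf_lt (by isBoundedDefault) hlt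
    have h3 : ∀ᶠ k in atTop, eLpNorm (fun x => F k x - f x) 2 (mu w) < 1 / (n + 1) :=
      (tendsto_order.1 hF.2).2 _ hn
    obtain ⟨k, hk1, hk2⟩ := (h2.and_eventually h3).exists
    exact ⟨F k, (hF.1 k).1, (hF.1 k).2, hk2, hk1⟩
  choose F h1 h2 h3 h4 using key
  have hz : Tendsto (fun n : ℕ => (1 : ℝ≥0∞) / (n + 1)) atTop (𝓝 0) := by
    have := ENNReal.tendsto_inv_nat_nhds_zero.comp (tendsto_add_atTop_nat 1)
    refine this.congr fun n => ?_
    simp
  have hA : Ap w F f := by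
    refine ⟨fun n => ⟨h1 n, h2 n⟩, ?_⟩
    exact tendsto_of_tendsto_of_tendsto_of_le_of_le tendsto_const_nhds hz (fun _ => bot_le)
      fun n => (h3 n).le
  refine ⟨F, hA, ?_⟩
  have hup : Tendsto (fun n : ℕ => a + 1 / ((n : ℝ≥0∞) + 1)) atTop (𝓝 a) := by
    simpa using tendsto_const_nhds.add hz
  refine tendsto_of_le_liminf_of_limsup_le (Cw_le hA) ?_ (by isBoundedDefault)
    (by isBoundedDefault)
  calc limsup (fun n => Ew w (F n)) atTop
      ≤ limsup (fun n : ℕ => a + 1 / ((n : ℝ≥0∞) + 1)) atTop :=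
        limsup_le_limsup (Eventually.of_forall fun n => (h4 n).le)
    _ = a := hup.limsup_eq

end approx

end Pool.Agent.N288.MM
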