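import Pool.Agent.N288.MM.Der

/-!
# Weighted lines: Poincaré inequality and gradient estimate for harmonic functions
-/

set_option autoImplicit false

open MeasureTheory Filter Topology Set Metric
open scoped ENNReal NNReal

namespace Pool.Agent.N288.MM

variable {w : ℝ → ℝ}

lemma doubling (hw : Weight w) (x r : ℝ) :
    mu w (ball x (2 * r)) ≤ ENNReal.ofReal 4 * mu w (ball x r) := by
  calc mu w (ball x (2 * r)) ≤ ENNReal.ofReal (4 * (2 * r)) := mu_ball_le hw _ _
    _ = ENNReal.ofReal 4 * ENNReal.ofReal (2 * r) := ENNReal.ofReal_mul (by norm_num)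
    _ ≤ ENNReal.ofReal 4 * mu w (ball x r) := by gcongr; exact le_mu_ball hw x r

lemma osc_le (hw : Weight w) {f : ℝ → ℝ} (hf : IsLip f) {x r y z : ℝ} (hr : 0 < r)
    (hy : y ∈ ball x r) (hz : z ∈ ball x r) :
    ENNReal.ofReal |f y - f z| ≤
      (∫⁻ t in ball x r, lip f t ^ 2 ∂(mu w)) ^ (1 / 2 : ℝ) * ENNReal.ofReal (Real.sqrt (2 * r)) := by
  have h1 : ENNReal.ofReal |f y - f z| ≤ ∫⁻ t in ball x r, ENNReal.ofReal |deriv f t| := by
    rw [← hf.ftc z y]
    have h2 : |∫ t in z..y, deriv f t| ≤ ∫ t in uIoc z y, |deriv f t| := by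
      have := intervalIntegral.norm_integral_le_integral_norm_uIoc (f := deriv f) (a := z) (b := y)
        (μ := volume)
      simpa only [Real.norm_eq_abs] using this
    have h3 : IntegrableOn (fun t => |deriv f t|) (uIoc z y) :=
      (intervalIntegrable_iff.1 (hf.intble z y)).norm
    calc ENNReal.ofReal |∫ t in z..y, deriv f t|
        ≤ ENNReal.ofReal (∫ t in uIoc z y, |deriv f t|) := ENNReal.ofReal_le_ofReal h2
      _ = ∫⁻ t in uIoc z y, ENNReal.ofReal |deriv f t| :=
          ofReal_integral_eq_lintegral_ofReal h3 (Eventually.of_forall fun t => abs_nonneg _)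
      _ ≤ ∫⁻ t in ball x r, ENNReal.ofReal |deriv f t| := by
          refine lintegral_mono_set ?_
          rw [Real.ball_eq_Ioo] at hy hz ⊢
          exact uIoc_subset_uIcc.trans (ordConnected_Ioo.uIcc_subset hz hy)
  refine h1.trans ?_
  have h4 := ENNReal.lintegral_mul_le_Lp_mul_Lq (volume.restrict (ball x r))
    (Real.HolderConjugate.two_two) (f := fun t => ENNReal.ofReal |deriv f t|) (g := fun _ => 1)
    ((measurable_deriv f).norm.ennreal_ofReal.aemeasurable) aemeasurable_const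
  simp only [Pi.mul_apply, mul_one, ENNReal.one_rpow, lintegral_const, Measure.restrict_apply_univ,
    one_mul] at h4
  refine h4.trans ?_
  have h5 : volume (ball x r) ^ (1 / 2 : ℝ) = ENNReal.ofReal (Real.sqrt (2 * r)) := by
    rw [Real.volume_ball, Real.sqrt_eq_rpow, ENNReal.ofReal_rpow_of_pos (by positivity)]
  rw [h5]
  refine mul_le_mul_left (ENNReal.rpow_le_rpow ?_ (by norm_num)) _
  calc ∫⁻ t in ball x r, ENNReal.ofReal |deriv f t| ^ (2 : ℝ)
      ≤ ∫⁻ t in ball x r, ENNReal.ofReal |deriv f t| ^ (2 : ℝ) ∂(mu w) :=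
        lintegral_mono' (Measure.restrict_mono_measure (vol_le hw) _) le_rfl
    _ = ∫⁻ t in ball x r, lip f t ^ 2 ∂(mu w) := by
        refine lintegral_congr_ae (ae_restrict_of_ae ?_)
        filter_upwards [(ae_iff_vol hw).2 (lip_ae hf)] with t ht
        rw [ht]
        norm_num

lemma IsLip.cont {f : ℝ → ℝ} (hf : IsLip f) : Continuous f := by
  obtain ⟨K, hK⟩ := hf
  exact hK.continuous

lemma poincare (hw : Weight w) {f : ℝ → ℝ} (hf : IsLip f) {x r : ℝ} (hr : 0 < r) :
    (∫⁻ y in ball x r, ENNReal.ofReal |f y - ⨍ z in ball x r, f z ∂(mu w)| ∂(mu w)) /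
        mu w (ball x r) ≤
      ENNReal.ofReal (3 * r) *
        ((∫⁻ y in ball x (1 * r), lip f y ^ 2 ∂(mu w)) / mu w (ball x (1 * r))) ^ (1 / 2 : ℝ) := by
  rw [one_mul]
  set A := ∫⁻ t in ball x r, lip f t ^ 2 ∂(mu w) with hA
  set D := A ^ (1 / 2 : ℝ) * ENNReal.ofReal (Real.sqrt (2 * r)) with hD
  have hB0 : mu w (ball x r) ≠ 0 := by
    have := le_mu_ball hw x r
    intro h0
    rw [h0] at this
    simp at this
    linarith
  have hBt : mu w (ball x r) ≠ ∞ := ((line w hw).ball_fin x r).ne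
  have hint : IntegrableOn f (ball x r) (mu w) := by
    obtain ⟨C, hC⟩ := (isCompact_closedBall x r).exists_bound_of_continuousOn hf.cont.continuousOn
    refine Measure.integrableOn_of_bounded (M := C) hBt hf.cont.aestronglyMeasurable ?_
    exact (ae_restrict_mem measurableSet_ball).mono fun t ht => hC t (ball_subset_closedBall ht)
  have hAt : A ≠ ∞ := by
    obtain ⟨K, hK⟩ := hf
    have h1 : A ≤ ∫⁻ t in ball x r, (K : ℝ≥0∞) ^ 2 ∂(mu w) := by
      refine lintegral_mono_ae (ae_restrict_of_ae ?_)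
      filter_upwards [(ae_iff_vol hw).2 (lip_ae ⟨K, hK⟩)] with t ht
      rw [ht]
      gcongr
      have h2 := norm_deriv_le_of_lipschitz (x₀ := t) hK
      rw [Real.norm_eq_abs] at h2
      calc ENNReal.ofReal |deriv f t| ≤ ENNReal.ofReal K := ENNReal.ofReal_le_ofReal h2
        _ = K := ENNReal.ofReal_coe_nnreal
    refine ne_top_of_le_ne_top ?_ h1
    rw [setLIntegral_const]
    exact ENNReal.mul_ne_top (by simp) hBt
  have hDt : D ≠ ∞ := ENNReal.mul_ne_top (ENNReal.rpow_ne_top_of_nonneg (by norm_num) hAt)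
    ENNReal.ofReal_ne_top
  have hosc : ∀ y ∈ ball x r, ENNReal.ofReal |f y - ⨍ z in ball x r, f z ∂(mu w)| ≤ D := by
    intro y hy
    have h1 : ∀ z ∈ ball x r, f z ∈ Icc (f y - D.toReal) (f y + D.toReal) := by
      intro z hz
      have h2 := osc_le hw hf hr hy hz
      have h3 : |f y - f z| ≤ D.toReal := by
        rwa [← ENNReal.ofReal_le_iff_le_toReal hDt]
      rw [abs_le] at h3
      constructor <;> linarith
    have h4 : ⨍ z in ball x r, f z ∂(mu w) ∈ Icc (f y - D.toReal) (f y + D.toReal) :=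
      Convex.set_average_mem (convex_Icc _ _) isClosed_Icc hB0 hBt
        ((ae_restrict_mem measurableSet_ball).mono fun z hz => h1 z hz) hint
    rw [ENNReal.ofReal_le_iff_le_toReal hDt, abs_le]
    constructor <;> linarith [h4.1, h4.2]
  have hL : (∫⁻ y in ball x r, ENNReal.ofReal |f y - ⨍ z in ball x r, f z ∂(mu w)| ∂(mu w)) /
      mu w (ball x r) ≤ D := by
    refine ENNReal.div_le_of_le_mul ?_
    calc ∫⁻ y in ball x r, ENNReal.ofReal |f y - ⨍ z in ball x r, f z ∂(mu w)| ∂(mu w)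
        ≤ ∫⁻ y in ball x r, D ∂(mu w) := setLIntegral_mono' measurableSet_ball hosc
      _ = D * mu w (ball x r) := setLIntegral_const _ _
  refine hL.trans ?_
  have h6 : (A / ENNReal.ofReal (4 * r)) ^ (1 / 2 : ℝ) ≤
      (A / mu w (ball x r)) ^ (1 / 2 : ℝ) := by
    gcongr
    exact mu_ball_le hw x r
  refine le_trans ?_ (mul_le_mul_right h6 _)
  rw [ENNReal.div_rpow_of_nonneg _ _ (by norm_num), ENNReal.ofReal_rpow_of_pos (by positivity),
    ← Real.sqrt_eq_rpow, hD, mul_comm, ← mul_div_assoc, mul_comm (ENNReal.ofReal (3 * r)),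
    mul_div_assoc, ← ENNReal.ofReal_div_of_pos (by positivity), mul_comm (A ^ (1 / 2 : ℝ))]
  refine mul_le_mul_left (ENNReal.ofReal_le_ofReal ?_) _
  rw [le_div_iff₀ (by positivity), ← Real.sqrt_mul (by positivity)]
  rw [Real.sqrt_le_left (by positivity)]
  nlinarith

lemma line_PI (hw : Weight w) : PI (line w hw) (fun _ => 4) (fun _ => 3) 1 :=
  fun _ _ x r hr _ => ⟨doubling hw x r, fun _ hf => poincare hw hf hr⟩

end Pool.Agent.N288.MM
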