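import Pool.Agent.N288.MM.PIQL

/-!
# Primitives of bounded functions with compact support and mean zero
-/

set_option autoImplicit false

open MeasureTheory Filter Topology Set Metric
open scoped ENNReal NNReal

namespace Pool.Agent.N288.MM

variable {w : ℝ → ℝ}

structure Bd (θ : ℝ → ℝ) (M p q : ℝ) : Prop where
  meas : Measurable θ
  bd : ∀ t, |θ t| ≤ M
  le : p ≤ q
  zero : ∀ t, t ∉ Icc p q → θ t = 0
  mean : ∫ t in p..q, θ t = 0

namespace Bd

variable {θ : ℝ → ℝ} {M p q : ℝ}

lemma integrable (h : Bd θ M p q) : Integrable θ := by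
  have h1 : IntegrableOn θ (Icc p q) := by
    refine Measure.integrableOn_of_bounded (M := M) (by simp) h.meas.aestronglyMeasurable ?_
    exact Eventually.of_forall fun t => by rw [Real.norm_eq_abs]; exact h.bd t
  refine (integrableOn_iff_integrable_of_support_subset ?_).1 h1
  intro t ht
  by_contra hc
  exact ht (h.zero t hc)

lemma iint (h : Bd θ M p q) (a b : ℝ) : IntervalIntegrable θ volume a b :=
  h.integrable.intervalIntegrable

lemma M_nonneg (h : Bd θ M p q) : 0 ≤ M := le_trans (abs_nonneg _) (h.bd 0)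

lemma isLip (h : Bd θ M p q) : IsLip fun t => ∫ s in p..t, θ s := by
  refine ⟨M.toNNReal, LipschitzWith.of_dist_le_mul fun x y => ?_⟩
  rw [Real.dist_eq, intervalIntegral.integral_interval_sub_left (h.iint _ _) (h.iint _ _),
    Real.coe_toNNReal _ h.M_nonneg, Real.dist_eq]
  have := intervalIntegral.norm_integral_le_of_norm_le_const (a := y) (b := x) (f := θ) (C := M)
    (fun t _ => by rw [Real.norm_eq_abs]; exact h.bd t)
  simpa using this

lemma outside (h : Bd θ M p q) {t : ℝ} (ht : t ∉ Icc p q) : ∫ s in p..t, θ s = 0 := by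
  rw [mem_Icc, not_and_or, not_le, not_le] at ht
  have hpq := h.le
  rcases ht with ht | ht
  · rw [intervalIntegral.integral_symm, intervalIntegral.integral_of_le ht.le, neg_eq_zero]
    refine (setIntegral_congr_ae (g := fun _ => (0 : ℝ)) measurableSet_Ioc ?_).trans (by simp)
    have : ∀ᵐ s : ℝ, s ≠ p := by simp [ae_iff, measure_singleton]
    filter_upwards [this] with s hs hs2
    exact h.zero s fun hc => hs (le_antisymm hs2.2 hc.1)
  · rw [← intervalIntegral.integral_add_adjacent_intervals (h.iint p q) (h.iint q t), h.mean,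
      zero_add, intervalIntegral.integral_of_le ht.le]
    refine (setIntegral_congr_fun (g := fun _ => (0 : ℝ)) measurableSet_Ioc fun s hs => ?_).trans
      (by simp)
    exact h.zero s fun hc => absurd hc.2 (not_le.2 hs.1)

lemma support_subset (h : Bd θ M p q) : Function.support (fun t => ∫ s in p..t, θ s) ⊆ Icc p q := by
  intro t ht
  by_contra hc
  exact ht (h.outside hc)

lemma tsupport_subset (h : Bd θ M p q) : tsupport (fun t => ∫ s in p..t, θ s) ⊆ Icc p q :=
  closure_minimal h.support_subset isClosed_Icc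

lemma cptSupp (h : Bd θ M p q) : HasCompactSupport (fun t => ∫ s in p..t, θ s) :=
  HasCompactSupport.intro isCompact_Icc fun _ ht => h.outside ht

lemma deriv_ae (h : Bd θ M p q) : ∀ᵐ t, deriv (fun t => ∫ s in p..t, θ s) t = θ t := by
  filter_upwards [LocallyIntegrable.ae_hasDerivAt_integral h.integrable.locallyIntegrable]
    with t ht using (ht p).deriv

lemma memLp_θ (hw : Weight w) (h : Bd θ M p q) : MemLp θ 2 (mu w) := by
  refine memLp_mu hw ?_
  have h1 : MemLp (fun _ : ℝ => M) 2 (volume.restrict (Icc p q)) := memLp_const M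
  have h2 : MemLp θ 2 (volume.restrict (Icc p q)) := by
    refine h1.of_le h.meas.aestronglyMeasurable (Eventually.of_forall fun t => ?_)
    rw [Real.norm_eq_abs, Real.norm_eq_abs, abs_of_nonneg h.M_nonneg]
    exact h.bd t
  refine (memLp_indicator_iff_restrict measurableSet_Icc).2 h2 |>.ae_eq
    (Eventually.of_forall fun t => ?_)
  by_cases ht : t ∈ Icc p q
  · simp [ht]
  · simp [indicator_of_notMem ht, h.zero t ht]

lemma memLp_prim (hw : Weight w) (h : Bd θ M p q) : MemLp (fun t => ∫ s in p..t, θ s) 2 (mu w) := by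
  refine memLp_mu hw ?_
  exact (h.isLip.cont).memLp_of_hasCompactSupport h.cptSupp

lemma der (hw : Weight w) (h : Bd θ M p q) : Der w (fun t => ∫ s in p..t, θ s) θ := by
  have h1 : MemLp (deriv fun t => ∫ s in p..t, θ s) 2 (mu w) :=
    (h.memLp_θ hw).ae_eq (((ae_iff_vol hw).2 h.deriv_ae).mono fun t ht => ht.symm)
  obtain ⟨a, b, F, hF, hd⟩ := Der.of_lip h.isLip (h.memLp_prim hw) h1
  refine ⟨a, h.memLp_θ hw, F, hF, hd.congr fun n => ?_⟩
  refine eLpNorm_congr_ae ?_
  filter_upwards [(ae_iff_vol hw).2 h.deriv_ae] with t ht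
  rw [ht]

lemma lipCpt (h : Bd θ M p q) {B : Set ℝ} (hB : Icc p q ⊆ B) :
    LipCptIn B fun t => ∫ s in p..t, θ s :=
  ⟨h.isLip, h.cptSupp, h.tsupport_subset.trans hB⟩

end Bd

end Pool.Agent.N288.MM
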