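import Pool.Agent.N288.MM.Prim

/-!
# Weighted lines: gradient estimate for harmonic functions
-/

set_option autoImplicit false

open MeasureTheory Filter Topology Set Metric
open scoped ENNReal NNReal

namespace Pool.Agent.N288.MM

variable {w : ℝ → ℝ}

noncomputable def pairW (w u φ : ℝ → ℝ) : ℝ :=
  ((Cw w (fun x => u x + φ x)).toReal - (Cw w (fun x => u x - φ x)).toReal) / 2

def HarmW (w : ℝ → ℝ) (B : Set ℝ) (h : ℝ → ℝ) : Prop :=
  (∀ χ : ℝ → ℝ, LipCptIn B χ →
    MemLp (fun x => χ x * h x) 2 (mu w) ∧ Cw w (fun x => χ x * h x) < ∞) ∧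
  ∀ φ χ : ℝ → ℝ, LipCptIn B φ → LipCptIn B χ →
    (∀ᶠ x in 𝓝ˢ (tsupport φ), χ x = 1) → pairW w (fun x => χ x * h x) φ = 0

lemma harm_line (hw : Weight w) (B : Set ℝ) (h : ℝ → ℝ) :
    Harmonic (line w hw) B h ↔ HarmW w B h := Iff.rfl

lemma Q_toReal {g : ℝ → ℝ} (hg : AEMeasurable g (mu w)) :
    (Q w g).toReal = ∫ x, g x ^ 2 ∂(mu w) := by
  rw [integral_eq_lintegral_of_nonneg_ae (Eventually.of_forall fun x => sq_nonneg _)
    (hg.pow_const 2).aestronglyMeasurable]
  rfl

lemma pair_eq (hw : Weight w) {u g φ θ : ℝ → ℝ} (hu : Der w u g) (hφ : Der w φ θ) :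
    pairW w u φ = ∫ x, g x * θ x ∂(mu w) := by
  have h1 := hu.add hw hφ
  have h2 := hu.sub hw hφ
  unfold pairW
  rw [h1.Cw_eq hw, h2.Cw_eq hw, ENNReal.toReal_div, ENNReal.toReal_div,
    Q_toReal h1.2.1.1.aemeasurable, Q_toReal h2.2.1.1.aemeasurable]
  have i1 := h1.2.1.integrable_sq
  have i2 := h2.2.1.integrable_sq
  have e : (∫ x, (g x + θ x) ^ 2 ∂(mu w)) - ∫ x, (g x - θ x) ^ 2 ∂(mu w) =
      4 * ∫ x, g x * θ x ∂(mu w) := by
    rw [← integral_sub i1 i2, ← integral_const_mul]
    congr 1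
    funext x
    ring
  have e2 : ENNReal.toReal 2 = 2 := rfl
  rw [e2]
  linarith

lemma int_mu (hw : Weight w) (f : ℝ → ℝ) : ∫ x, f x ∂(mu w) = ∫ x, w x * f x := by
  unfold mu
  rw [integral_withDensity_eq_integral_toReal_smul (hw.meas.ennreal_ofReal)
    (Eventually.of_forall fun x => ENNReal.ofReal_lt_top)]
  refine integral_congr_ae (Eventually.of_forall fun x => ?_)
  simp only [smul_eq_mul]
  rw [ENNReal.toReal_ofReal (le_trans zero_le_one (hw.one_le x))]

/-- a function orthogonal to all mean zero functions is constant -/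
lemma const_of_orth {W : ℝ → ℝ} (hW : Measurable W) {p q : ℝ} (hpq : p < q)
    (hi : IntervalIntegrable W volume p q)
    (h : ∀ (θ : ℝ → ℝ) (M : ℝ), Bd θ M p q → ∫ x, W x * θ x = 0) :
    ∃ c, ∀ᵐ x, x ∈ Ioo p q → W x = c := by
  set c := (∫ x in p..q, W x) / (q - p) with hc
  set ψ : ℝ → ℝ := fun x => if c ≤ W x then 1 else -1 with hψ
  have hψm : Measurable ψ := Measurable.ite (measurableSet_le measurable_const hW)
    measurable_const measurable_const
  have hψb : ∀ x, |ψ x| ≤ 1 := by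
    intro x
    simp only [hψ]
    split_ifs <;> simp
  have hψi : IntervalIntegrable ψ volume p q := by
    refine (intervalIntegrable_const (c := (1 : ℝ))).mono_fun hψm.aestronglyMeasurable
      (Eventually.of_forall fun x => ?_)
    simpa using hψb x
  set d := (∫ x in p..q, ψ x) / (q - p) with hd
  have hd1 : |d| ≤ 1 := by
    rw [hd, abs_div, abs_of_pos (sub_pos.2 hpq), div_le_one (sub_pos.2 hpq)]
    have := intervalIntegral.norm_integral_le_of_norm_le_const (a := p) (b := q) (f := ψ) (C := 1)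
      (fun t _ => by rw [Real.norm_eq_abs]; exact hψb t)
    rw [Real.norm_eq_abs, one_mul, abs_of_pos (sub_pos.2 hpq)] at this
    exact this
  set θ : ℝ → ℝ := (Icc p q).indicator fun x => ψ x - d with hθ
  have hpq' : 0 < q - p := sub_pos.2 hpq
  have eθ : ∀ x ∈ uIcc p q, θ x = ψ x - d := by
    intro x hx
    rw [uIcc_of_le hpq.le] at hx
    exact indicator_of_mem hx _
  have hB : Bd θ 2 p q := by
    refine ⟨(hψm.sub_const d).indicator measurableSet_Icc, fun t => ?_, hpq.le, fun t ht => ?_, ?_⟩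
    · by_cases ht : t ∈ Icc p q
      · rw [hθ, indicator_of_mem ht]
        exact (abs_sub _ _).trans (by linarith [hψb t])
      · rw [hθ, indicator_of_notMem ht]; simp
    · exact indicator_of_notMem ht _
    · rw [intervalIntegral.integral_congr eθ, intervalIntegral.integral_sub hψi
        intervalIntegrable_const, intervalIntegral.integral_const, hd]
      rw [smul_eq_mul]
      field_simp
      ring
  have h1 := h θ 2 hB
  have h2 : ∫ x, W x * θ x = ∫ x in p..q, W x * (ψ x - d) := by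
    rw [intervalIntegral.integral_of_le hpq.le, ← integral_Icc_eq_integral_Ioc,
      ← integral_indicator measurableSet_Icc]
    congr 1
    funext x
    by_cases hx : x ∈ Icc p q
    · rw [indicator_of_mem hx, hθ, indicator_of_mem hx]
    · rw [indicator_of_notMem hx, hθ, indicator_of_notMem hx, mul_zero]
  have iWψ : IntervalIntegrable (fun x => W x * ψ x) volume p q := by
    refine hi.mono_fun (hW.mul hψm).aestronglyMeasurable (Eventually.of_forall fun x => ?_)
    show ‖W x * ψ x‖ ≤ ‖W x‖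
    rw [norm_mul]
    calc ‖W x‖ * ‖ψ x‖ ≤ ‖W x‖ * 1 := by gcongr; exact hψb x
      _ = ‖W x‖ := mul_one _
  have h3 : ∫ x in p..q, |W x - c| = 0 := by
    have e1 : ∀ x, |W x - c| = W x * (ψ x - d) + (d * W x - c * ψ x) := by
      intro x
      simp only [hψ]
      split_ifs with hx
      · rw [abs_of_nonneg (sub_nonneg.2 hx)]; ring
      · rw [abs_of_neg (sub_neg.2 (not_le.1 hx))]; ring
    simp only [e1]
    have i1 : IntervalIntegrable (fun x => W x * (ψ x - d)) volume p q := by
      have := iWψ.sub (hi.mul_const d)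
      refine this.congr ?_
      exact fun x _ => by ring
    rw [intervalIntegral.integral_add i1 ((hi.const_mul d).sub (hψi.const_mul c)), ← h2, h1,
      zero_add, intervalIntegral.integral_sub (hi.const_mul d) (hψi.const_mul c),
      intervalIntegral.integral_const_mul, intervalIntegral.integral_const_mul, hc, hd]
    field_simp
    ring
  refine ⟨c, ?_⟩
  have i3 : IntervalIntegrable (fun x => |W x - c|) volume p q :=
    (hi.sub intervalIntegrable_const).norm
  rw [intervalIntegral.integral_of_le hpq.le, setIntegral_eq_zero_iff_of_nonneg_ae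
    (Eventually.of_forall fun x => abs_nonneg _)
    ((intervalIntegrable_iff_integrableOn_Ioc_of_le hpq.le).1 i3)] at h3
  rw [Filter.EventuallyEq, ae_restrict_iff' measurableSet_Ioc] at h3
  filter_upwards [h3] with x hx hx2
  have := hx ⟨hx2.1, hx2.2.le⟩
  simpa [sub_eq_zero] using this

lemma Der.congr (hw : Weight w) {f g g' : ℝ → ℝ} (h : Der w f g) (he : ∀ᵐ x, g x = g' x) :
    Der w f g' := by
  obtain ⟨a, b, F, hF, hd⟩ := h
  refine ⟨a, b.ae_eq ((ae_iff_vol hw).2 he), F, hF, hd.congr fun n => ?_⟩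
  refine eLpNorm_congr_ae ?_
  filter_upwards [(ae_iff_vol hw).2 he] with t ht
  rw [ht]

/-- the key estimate -/
lemma QL_aux (hw : Weight w) {x r : ℝ} (hr : 0 < r) {h : ℝ → ℝ} (hH : HarmW w (ball x r) h)
    {χ G : ℝ → ℝ} (hχ : LipCptIn (ball x r) χ) (h1 : ∀ y ∈ ball x (r / 2), χ y = 1)
    (hG : IsGradW w (fun y => χ y * h y) G) {ρ : ℝ} (hρ1 : r / 4 ≤ ρ) (hρ2 : ρ < r / 2) :
    ∀ᵐ y, y ∈ Ioo (x - ρ) (x + ρ) → ENNReal.ofReal (G y) ≤ ENNReal.ofReal (128 / r) *
      ((∫⁻ z in ball x r, ENNReal.ofReal |h z| ∂(mu w)) / mu w (ball x r)) := by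
  obtain ⟨hm, hfin⟩ := hH.1 χ hχ
  obtain ⟨g1, hg1, -⟩ := der_of_fin hw hm hfin
  -- a measurable version of the derivative
  obtain ⟨g, hgm, hgg⟩ : ∃ g : ℝ → ℝ, Measurable g ∧ ∀ᵐ x, g1 x = g x := by
    have := (memLp_vol hw hg1.2.1).1.aemeasurable
    exact ⟨this.mk _, this.measurable_mk, this.ae_eq_mk⟩
  have hg : Der w (fun y => χ y * h y) g := hg1.congr hw hgg
  have hpq : x - ρ < x + ρ := by linarith
  have hsub : Icc (x - ρ) (x + ρ) ⊆ ball x (r / 2) := by
    intro y hy
    rw [Real.ball_eq_Ioo]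
    constructor <;> linarith [hy.1, hy.2]
  have hsub2 : ball x (r / 2) ⊆ ball x r := ball_subset_ball (by linarith)
  obtain ⟨c, hc⟩ := const_of_orth (W := fun t => w t * g t) (hw.meas.mul hgm) hpq (by
      have := memLp_iint hw hg.2.1 (x - ρ) (x + ρ)
      refine (this.const_mul 2).mono_fun (hw.meas.mul hgm).aestronglyMeasurable
        (Eventually.of_forall fun t => ?_)
      show ‖w t * g t‖ ≤ ‖2 * g t‖
      rw [norm_mul, norm_mul]
      gcongr
      rw [Real.norm_eq_abs, abs_of_nonneg (le_trans zero_le_one (hw.one_le t))]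
      simpa using hw.le_two t) (fun θ M hθ => by
    have h2 := hH.2 _ χ (hθ.lipCpt (hsub.trans hsub2)) hχ (by
      have : ball x (r / 2) ∈ 𝓝ˢ (tsupport fun t => ∫ s in (x - ρ)..t, θ s) :=
        isOpen_ball.mem_nhdsSet.2 (hθ.tsupport_subset.trans hsub)
      filter_upwards [this] with y hy using h1 y hy)
    rw [pair_eq hw hg (hθ.der hw), int_mu hw] at h2
    rw [← h2]
    congr 1
    funext t
    ring)
  -- g = c / w on the interval
  have hgc : ∀ᵐ t, t ∈ Ioo (x - ρ) (x + ρ) → g t = c / w t := by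
    filter_upwards [hc] with t ht htJ
    rw [← ht htJ]
    field_simp [(lt_of_lt_of_le zero_lt_one (hw.one_le t)).ne']
  -- continuous representative
  obtain ⟨s₀, hs₀⟩ : ∃ s, ∀ᵐ y, χ y * h y - χ s * h s = ∫ t in s..y, g t := by
    have := hg.ftc hw
    exact this.exists
  set U : ℝ → ℝ := fun y => χ s₀ * h s₀ + ∫ t in s₀..y, g t with hU
  have hUe : ∀ᵐ y, χ y * h y = U y := by
    filter_upwards [hs₀] with y hy
    rw [hU]
    linarith
  have hUc : Continuous U := by
    refine continuous_const.add ?_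
    exact intervalIntegral.continuous_primitive (fun a b => memLp_iint hw hg.2.1 a b) s₀
  have hslope : ∀ s ∈ Icc (x - ρ) x, |c| / 2 * ρ ≤ |U (s + ρ) - U s| := by
    intro s hs
    have e1 : U (s + ρ) - U s = ∫ t in s..(s + ρ), g t := by
      simp only [hU]
      rw [add_sub_add_left_eq_sub, intervalIntegral.integral_interval_sub_left
        (memLp_iint hw hg.2.1 _ _) (memLp_iint hw hg.2.1 _ _)]
    have hρ0 : 0 < ρ := by linarith
    have e2 : ∫ t in s..(s + ρ), g t = ∫ t in s..(s + ρ), c * (w t)⁻¹ := by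
      refine intervalIntegral.integral_congr_ae ?_
      have hne : ∀ᵐ t : ℝ, t ≠ x + ρ := by simp [ae_iff, measure_singleton]
      have hne2 : ∀ᵐ t : ℝ, t ≠ x - ρ := by simp [ae_iff, measure_singleton]
      filter_upwards [hgc, hne, hne2] with t ht h3 h4 h5
      rw [uIoc_of_le (by linarith)] at h5
      rw [ht ⟨lt_of_le_of_lt hs.1 h5.1, lt_of_le_of_ne (by linarith [h5.2, hs.2]) h3⟩]
      rfl
    rw [e1, e2, intervalIntegral.integral_const_mul, abs_mul]
    have hinv : ∀ t, (w t)⁻¹ ≥ 1 / 2 := by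
      intro t
      rw [ge_iff_le, one_div]
      exact inv_anti₀ (lt_of_lt_of_le zero_lt_one (hw.one_le t)) (hw.le_two t)
    have hinv1 : ∀ t, (w t)⁻¹ ≤ 1 := fun t => inv_le_one_of_one_le₀ (hw.one_le t)
    have hi : IntervalIntegrable (fun t => (w t)⁻¹) volume s (s + ρ) := by
      refine (intervalIntegrable_const (c := (1 : ℝ))).mono_fun
        hw.meas.inv.aestronglyMeasurable (Eventually.of_forall fun t => ?_)
      show ‖(w t)⁻¹‖ ≤ ‖(1 : ℝ)‖
      rw [Real.norm_eq_abs, abs_of_nonneg (by linarith [hinv t]), norm_one]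
      exact hinv1 t
    have h6 : (1 / 2) * ρ ≤ ∫ t in s..(s + ρ), (w t)⁻¹ := by
      have := intervalIntegral.integral_mono_on (a := s) (b := s + ρ) (f := fun _ => (1 / 2 : ℝ))
        (g := fun t => (w t)⁻¹) (by linarith) intervalIntegrable_const hi (fun t _ => hinv t)
      rw [intervalIntegral.integral_const, smul_eq_mul] at this
      linarith
    have h7 : 0 ≤ ∫ t in s..(s + ρ), (w t)⁻¹ := le_trans (by positivity) h6
    rw [abs_of_nonneg h7]
    calc |c| / 2 * ρ = |c| * ((1 / 2) * ρ) := by ring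
      _ ≤ |c| * ∫ t in s..(s + ρ), (w t)⁻¹ := by gcongr
  have hρ0 : 0 < ρ := by linarith
  -- lower bound of the L¹ norm
  have hUint : |c| / 2 * ρ * ρ ≤ ∫ t in (x - ρ)..(x + ρ), |U t| := by
    have ci : ∀ a b : ℝ, IntervalIntegrable (fun t => |U t|) volume a b :=
      fun a b => hUc.abs.intervalIntegrable a b
    have ci2 : ∀ a b : ℝ, IntervalIntegrable (fun t => |U (t + ρ)|) volume a b :=
      fun a b => (hUc.comp (continuous_id.add continuous_const)).abs.intervalIntegrable a b
    have e1 : ∫ t in x..(x + ρ), |U t| = ∫ t in (x - ρ)..x, |U (t + ρ)| := by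
      rw [intervalIntegral.integral_comp_add_right (fun t => |U t|)]
      congr 1
      ring
    rw [← intervalIntegral.integral_add_adjacent_intervals (ci (x - ρ) x) (ci x (x + ρ)), e1,
      ← intervalIntegral.integral_add (ci _ _) (ci2 _ _)]
    have := intervalIntegral.integral_mono_on (a := x - ρ) (b := x) (f := fun _ => |c| / 2 * ρ)
      (g := fun t => |U t| + |U (t + ρ)|) (by linarith) intervalIntegrable_const
      ((ci _ _).add (ci2 _ _)) (fun t ht => by
        refine (hslope t ht).trans ?_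
        rw [add_comm |U t|]
        exact abs_sub _ _)
    rw [intervalIntegral.integral_const, smul_eq_mul] at this
    calc |c| / 2 * ρ * ρ = (x - (x - ρ)) * (|c| / 2 * ρ) := by ring
      _ ≤ _ := this
  have hL1 : ENNReal.ofReal (|c| * r ^ 2 / 32) ≤
      ∫⁻ z in ball x r, ENNReal.ofReal |h z| ∂(mu w) := by
    calc ENNReal.ofReal (|c| * r ^ 2 / 32) ≤ ENNReal.ofReal (∫ t in (x - ρ)..(x + ρ), |U t|) := by
          refine ENNReal.ofReal_le_ofReal (le_trans ?_ hUint)
          have : (r / 4) ^ 2 ≤ ρ ^ 2 := by gcongr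
          have h0 : 0 ≤ |c| := abs_nonneg c
          nlinarith
      _ = ∫⁻ t in Ioc (x - ρ) (x + ρ), ENNReal.ofReal |U t| := by
          rw [intervalIntegral.integral_of_le hpq.le]
          refine ofReal_integral_eq_lintegral_ofReal ?_ (Eventually.of_forall fun t => abs_nonneg _)
          exact (hUc.abs.integrableOn_Icc).mono_set Ioc_subset_Icc_self
      _ = ∫⁻ t in Ioc (x - ρ) (x + ρ), ENNReal.ofReal |h t| := by
          refine setLIntegral_congr_fun_ae measurableSet_Ioc ?_
          filter_upwards [hUe] with t ht htJ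
          rw [← ht, h1 t (hsub ⟨htJ.1.le, htJ.2⟩), one_mul]
      _ ≤ ∫⁻ t in ball x r, ENNReal.ofReal |h t| :=
          lintegral_mono_set (Ioc_subset_Icc_self.trans (hsub.trans hsub2))
      _ ≤ ∫⁻ z in ball x r, ENNReal.ofReal |h z| ∂(mu w) :=
          lintegral_mono' (Measure.restrict_mono_measure (vol_le hw) _) le_rfl
  have hGg := isGrad_eq hw hg hG
  filter_upwards [hGg, hgc] with y hy1 hy2 hyJ
  rw [hy1, hy2 hyJ]
  have h8 : |c / w y| ≤ |c| := by
    rw [abs_div, abs_of_nonneg (le_trans zero_le_one (hw.one_le y))]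
    exact div_le_self (abs_nonneg _) (hw.one_le y)
  calc ENNReal.ofReal |c / w y| ≤ ENNReal.ofReal |c| := ENNReal.ofReal_le_ofReal h8
    _ = ENNReal.ofReal (128 / r) * (ENNReal.ofReal (|c| * r ^ 2 / 32) / ENNReal.ofReal (4 * r)) := by
        rw [← ENNReal.ofReal_div_of_pos (by positivity), ← ENNReal.ofReal_mul (by positivity)]
        congr 1
        field_simp
        ring
    _ ≤ ENNReal.ofReal (128 / r) *
      ((∫⁻ z in ball x r, ENNReal.ofReal |h z| ∂(mu w)) / mu w (ball x r)) := by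
        gcongr
        exact mu_ball_le hw x r

lemma QL_W (hw : Weight w) {x r : ℝ} (hr : 0 < r) {h : ℝ → ℝ} (hH : HarmW w (ball x r) h)
    {χ G : ℝ → ℝ} (hχ : LipCptIn (ball x r) χ) (h1 : ∀ y ∈ ball x (r / 2), χ y = 1)
    (hG : IsGradW w (fun y => χ y * h y) G) :
    ∀ᵐ y ∂(mu w), y ∈ ball x (r / 2) → ENNReal.ofReal (G y) ≤ ENNReal.ofReal (128 / r) *
      ((∫⁻ z in ball x r, ENNReal.ofReal |h z| ∂(mu w)) / mu w (ball x r)) := by
  have key : ∀ n : ℕ, ∀ᵐ y : ℝ, y ∈ Ioo (x - (r / 2 - r / (4 * ((n : ℝ) + 1))))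
      (x + (r / 2 - r / (4 * ((n : ℝ) + 1)))) →
      ENNReal.ofReal (G y) ≤ ENNReal.ofReal (128 / r) *
      ((∫⁻ z in ball x r, ENNReal.ofReal |h z| ∂(mu w)) / mu w (ball x r)) := by
    intro n
    have hn : (1 : ℝ) ≤ n + 1 := by
      have : (0 : ℝ) ≤ n := n.cast_nonneg
      linarith
    refine QL_aux hw hr hH hχ h1 hG ?_ ?_
    · have : r / (4 * ((n : ℝ) + 1)) ≤ r / 4 := by
        refine div_le_div_of_nonneg_left hr.le (by norm_num) (by linarith)
      linarith
    · have : 0 < r / (4 * ((n : ℝ) + 1)) := by positivity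
      linarith
  refine (ae_iff_vol hw).2 ?_
  filter_upwards [ae_all_iff.2 key] with y hy hyB
  obtain ⟨n, hn⟩ := exists_nat_gt (r / (4 * (r / 2 - |y - x|)))
  have hyB' : |y - x| < r / 2 := by
    have : dist y x < r / 2 := hyB
    rwa [Real.dist_eq] at this
  have hpos : 0 < r / 2 - |y - x| := by linarith
  refine hy n ?_
  have h3 : r / (4 * ((n : ℝ) + 1)) < r / 2 - |y - x| := by
    rw [div_lt_iff₀ (by positivity)] at hn ⊢
    nlinarith
  have := abs_lt.1 (show |y - x| < r / 2 - r / (4 * ((n : ℝ) + 1)) by linarith)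
  constructor <;> linarith [this.1, this.2]

lemma QL_line (hw : Weight w) : QL (line w hw) (fun _ => 128) :=
  fun _ _ _ _ hr _ _ hH _ _ hχ h1 hG => QL_W hw hr hH hχ h1 hG

end Pool.Agent.N288.MM
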